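import Pool.Agent.Work.MP_9a767b_pr.L.Main
import Pool.Agent.Work.MP_9a767b_pr.U.NearC
import Pool.Agent.Work.MP_9a767b_pr.Z.Final

/-!
# Plane: the transfer to an arbitrary probability space
-/

open MeasureTheory ProbabilityTheory Filter Topology

namespace Pool.Agent.Work.MP_9a767b_pr.L

/-- If the increments of a sequence converge to `c` and the sequence divided by `n` converges to `μ`
then `c = μ`. -/
theorem limit_unique {f : ℕ → ℝ} (h0 : f 0 = 0) {c μ : ℝ}
    (hc : Tendsto (fun n : ℕ => f (n + 1) - f n) atTop (𝓝 c))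
    (hμ : Tendsto (fun n : ℕ => f n / n) atTop (𝓝 μ)) : c = μ := by
  have h := hc.cesaro
  refine tendsto_nhds_unique h (hμ.congr fun n => ?_)
  rw [Finset.sum_range_sub, h0, sub_zero, div_eq_inv_mul]

/-- The setting: an arbitrary probability space. -/
theorem setting {Ω : Type*} [MeasurableSpace Ω] (P : Measure Ω) [IsProbabilityMeasure P]
    (ν : Measure ℝ) (τ : Sym2 (ℤ × ℤ) → Ω → ℝ) (a : ℕ → Ω → ℝ)
    (hτ : ∀ e ∈ lattice.edgeSet, Measurable (τ e))
    (hind : iIndepFun (fun (e : lattice.edgeSet) => τ e.1) P)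
    (hlaw : ∀ e ∈ lattice.edgeSet, Measure.map (τ e) P = ν)
    (hpos : ∀ e ω, 0 ≤ τ e ω)
    (ha : ∀ n ω, a n ω = ⨅ w : lattice.Walk ((0, 0) : ℤ × ℤ) ((n : ℤ), 0),
      (w.edges.map (fun e => τ e ω)).sum)
    (hint : Integrable (a 1) P) :
    IsProbabilityMeasure ν ∧ ν (Set.Iio 0) = 0 ∧
      Integrable (fun ω => T ω 0 (1, 0)) (Q ν) ∧
      ∀ n : ℕ, Integrable (a n) P ∧ ∫ ω, a n ω ∂P = g ν (n, 0) := by
  have hpt : ∀ n ω, a n ω = pt (fun e => τ e ω) 0 ((n : ℤ), 0) := fun n ω => ha n ω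
  have hedge : s(((0, 0) : ℤ × ℤ), ((1, 0) : ℤ × ℤ)) ∈ lattice.edgeSet := by
    rw [SimpleGraph.mem_edgeSet, adj_iff]; simp
  have hp : IsProbabilityMeasure ν := by
    rw [← hlaw _ hedge]; exact Measure.isProbabilityMeasure_map (hτ _ hedge).aemeasurable
  have hT := fun (m : ℕ) (x y : Fin m → V) (f : (Fin m → ℝ) → ℝ) (hf : Measurable f) =>
    transfer P ν τ (fun e he => (hτ e he).aemeasurable) hind hlaw hpos x y f hf
  have hI : Integrable (fun ω => T ω 0 (1, 0)) (Q ν) := by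
    have h := (hT 1 (fun _ => 0) (fun _ => (1, 0)) (fun v => v 0) (measurable_pi_apply 0)).2
    refine h.1 ?_
    refine hint.congr (Eventually.of_forall fun ω => ?_)
    simpa using hpt 1 ω
  refine ⟨hp, ?_, hI, fun n => ?_⟩
  · rw [← hlaw _ hedge, Measure.map_apply (hτ _ hedge) measurableSet_Iio]
    have : τ s((0, 0), (1, 0)) ⁻¹' Set.Iio 0 = ∅ := by
      ext ω
      simp [hpos _ ω]
    rw [this, measure_empty]
  · have h := hT 1 (fun _ => 0) (fun _ => ((n : ℤ), 0)) (fun v => v 0) (measurable_pi_apply 0)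
    refine ⟨?_, ?_⟩
    · refine (h.2.2 (integrable_T hI _ _)).congr (Eventually.of_forall fun ω => ?_)
      exact (hpt n ω).symm
    · rw [g, ← h.1]
      exact integral_congr_ae (Eventually.of_forall fun ω => hpt n ω)

/-- The limit of the increments for the first, third and fourth alternative. -/
theorem plane {ν : Measure ℝ} [IsProbabilityMeasure ν] (hneg : ν (Set.Iio 0) = 0)
    (hI : Integrable (fun ω => T ω 0 (1, 0)) (Q ν)) {μ : ℝ}
    (hμ : Tendsto (fun n : ℕ => g ν (n, 0) / n) atTop (𝓝 μ))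
    (h : 1 / 2 ≤ ν {0} ∨ (∃ r < μ, 15 / 16 < ν (Set.Iic r)) ∨
      ∃ r, ν (Set.Iio r) = 0 ∧ 15 / 16 < ν {r}) :
    Tendsto (fun n : ℕ => g ν ((n : ℤ) + 1, 0) - g ν (n, 0)) atTop (𝓝 μ) := by
  have hsub := subSym_g hI
  have hf0 : g ν (((0 : ℕ) : ℤ), 0) = 0 := by
    have e1 := hsub.zero
    exact e1
  have key : ∀ c : ℝ, Tendsto (fun n : ℕ => g ν ((n : ℤ) + 1, 0) - g ν (n, 0)) atTop (𝓝 c) →
      Tendsto (fun n : ℕ => g ν ((n : ℤ) + 1, 0) - g ν (n, 0)) atTop (𝓝 μ) := by
    intro c hc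
    have e : c = μ := by
      refine limit_unique (f := fun n : ℕ => g ν ((n : ℤ), 0)) hf0 ?_ hμ
      refine hc.congr fun n => ?_
      push_cast
      rfl
    rwa [e] at hc
  have hμN : μ = Nm (g ν) 1 0 := by
    have h := nm_tendsto_int hsub 1 0
    simp only [mul_one, mul_zero, Int.cast_one, Int.cast_zero] at h
    exact tendsto_nhds_unique hμ h
  have hzero : 1 / 2 ≤ ν.real {0} →
      Tendsto (fun n : ℕ => g ν ((n : ℤ) + 1, 0) - g ν (n, 0)) atTop (𝓝 μ) :=
    fun h => key 0 (Z.zero_unit h hI)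
  have hbig : ∀ s : Set ℝ, 15 / 16 < ν s → 15 / 16 < ν.real s := by
    intro s hs
    have h1 := (ENNReal.toReal_lt_toReal (by simp [ENNReal.div_eq_top]) (measure_ne_top ν s)).2 hs
    simpa [Measure.real] using h1
  rcases h with h | ⟨r, hr, h⟩ | ⟨r, hr, h⟩
  · refine hzero ?_
    have h1 := ENNReal.toReal_mono (measure_ne_top ν {0}) h
    simpa [Measure.real] using h1
  · have hr0 : 0 ≤ r := by
      by_contra hcon
      push Not at hcon
      have h1 : ν (Set.Iic r) ≤ ν (Set.Iio 0) :=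
        measure_mono fun x hx => lt_of_le_of_lt hx hcon
      rw [hneg] at h1
      exact absurd (lt_of_lt_of_le h h1) (by simp)
    have h2 : ν (Set.Iic r) ≤ ν {x | |x| ≤ r} := by
      have h3 : Set.Iic r ⊆ {x | |x| ≤ r} ∪ Set.Iio 0 := by
        intro x hx
        rcases lt_or_ge x 0 with h4 | h4
        · exact Or.inr h4
        · exact Or.inl (by simpa [abs_of_nonneg h4] using hx)
      calc ν (Set.Iic r) ≤ ν ({x | |x| ≤ r} ∪ Set.Iio 0) := measure_mono h3
        _ ≤ ν {x | |x| ≤ r} + ν (Set.Iio 0) := measure_union_le _ _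
        _ = ν {x | |x| ≤ r} := by rw [hneg, add_zero]
    rw [hμN]
    exact quantile hI hr0 (hbig _ (lt_of_lt_of_le h h2)) (hμN ▸ hr)
  · rcases lt_trichotomy r 0 with hr0 | hr0 | hr0
    · exfalso
      have h1 : ν {r} ≤ ν (Set.Iio 0) := measure_mono (by simpa using hr0)
      rw [hneg] at h1
      exact absurd (lt_of_lt_of_le h h1) (by simp)
    · subst hr0
      refine hzero ?_
      have h1 := hbig _ h
      linarith
    · obtain ⟨c, hc⟩ := large_atom hI hr0 (by
        rw [ae_iff]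
        convert hr using 2
        ext x
        simp) (hbig _ h)
      exact key c hc

end Pool.Agent.Work.MP_9a767b_pr.L
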