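import Pool.Agent.Work.MP_9a767b_pr.L.Defs

/-!
# Contour: if no target is reached there is a blocking contour (deterministic)

PROOF. Let `R = Rec 0 k 0 k`, `C = {v ∈ R | Wet O k W v}` (the sources are in `C` since `W ≤ k`). Define arrows
between dual vertices, with `C` on the right hand side:
east `(i,j) → (i+1,j)` if `(i+1,j) ∈ C` and `(i+1,j+1) ∈ R \ C`;
south `(i,j) → (i,j-1)` if `(i,j) ∈ C` and `(i+1,j) ∈ R \ C`;
west `(i,j) → (i-1,j)` if `(i,j+1) ∈ C` and `(i,j) ∈ R \ C`;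
north `(i,j) → (i,j+1)` if `(i+1,j+1) ∈ C` and `(i,j+1) ∈ R \ C`.
In the first two cases the crossed edge (`cr_right`, `cr_up`, `cr_comm`) is a directed step from `C` to `R \ C`,
so it is not in `O`. Let `F = {(i,j) | -1 ≤ i, j ≤ k}`, the left/top ring `Start k`, the bottom/right ring
`(i,-1)`, `(k,j)` with `0 ≤ i, j < k`. With the indicator of `C` at the corners `a = (i,j)`, `b = (i+1,j)`,
`c = (i+1,j+1)`, `d = (i,j+1)`: for `0 ≤ i, j < k` the number of arrows out of `(i,j)` is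
`[a¬b] + [b¬c] + [c¬d] + [d¬a]` and the number of arrows into it is `[b¬a] + [c¬b] + [d¬c] + [a¬d]`; these are
equal. For the left ring `(-1,j)`: out minus in `= [(0,j) ∈ C] - [(0,j+1) ∈ C]`, for the top ring `(i,k)`:
`[(i,k) ∈ C] - [(i+1,k) ∈ C]`; the sum over the left/top ring is `[(0,0) ∈ C] - [(k,k) ∈ C] = 1`.
Let `Z` be the set of the dual vertices reachable by arrows from `Start k`. If `Z` contained no vertex of
the bottom/right ring, then `∑_{z ∈ Z} (out z - in z) = 1`, but all arrows out of `Z` end in `Z`, so this sum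
is at most `0`: contradiction. So there is a chain of arrows from `z0 ∈ Start k` to a vertex `z1` of the
bottom/right ring. Take one of minimal length; its vertices are distinct, so the crossed edges are
distinct (an edge determines the pair of dual vertices) and its length is at most `(k+2)^2`.
Let `c` be the list of its directions. `Φ z = z.1 - z.2` grows by one for east and south steps, and
decreases by one for west and north steps. Start: `z0 = (-1,j)` with `(0,j+1) ∉ C`, so `j ≥ W`, or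
`z0 = (i,k)` with `(i,k) ∈ C`, so `i < k - W`. End: `z1 = (i,-1)` with `(i+1,0) ∉ C`, so `i ≥ W`, or `z1 = (k,j)` with
`(k,j) ∈ C`, so `j < k - W`. In all four cases `Φ z1 - Φ z0 ≥ W`. So with `A` = number of east and south
steps = length of `edg z0 c`, `c.length = 2 A - (Φ z1 - Φ z0) ≤ 2 A` and `c.length ≥ Φ z1 - Φ z0 ≥ W`.
(`0 < k` is needed for `Start k` to be nonempty; the sum over the ring telescopes.)
-/

open MeasureTheory ProbabilityTheory Filter Topology

namespace Pool.Agent.Work.MP_9a767b_pr.L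

open Z

/-- the wet vertices of the square -/
private def Cs (O : Set (Sym2 V)) (k W : ℤ) : Set V := {v | v ∈ Rec 0 k 0 k ∧ Wet O k W v}

/-- `u` is wet, `v` is a dry vertex of the square -/
private def Ar (O : Set (Sym2 V)) (k W : ℤ) (u v : V) : Prop :=
  u ∈ Cs O k W ∧ v ∈ Rec 0 k 0 k ∧ v ∉ Cs O k W

/-- right end of the edge crossed in direction `d` -/
private def rp (d : Fin 4) (z : V) : V :=
  z + (![(1, 0), (0, 0), (0, 1), (1, 1)] : Fin 4 → V) d

/-- left end of the edge crossed in direction `d` -/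
private def lp (d : Fin 4) (z : V) : V :=
  z + (![(1, 1), (1, 0), (0, 0), (0, 1)] : Fin 4 → V) d

/-- arrow in the direction `d` -/
private def Arr (O : Set (Sym2 V)) (k W : ℤ) (d : Fin 4) (z : V) : Prop :=
  Ar O k W (rp d z) (lp d z)

private theorem rec_iff {k x y : ℤ} :
    ((x, y) : V) ∈ Rec 0 k 0 k ↔ 0 ≤ x ∧ x ≤ k ∧ 0 ≤ y ∧ y ≤ k := Iff.rfl

private theorem step_cs {O : Set (Sym2 V)} {k W : ℤ} {u v : V} (h : Ar O k W u v)
    (huv : v = (u.1 + 1, u.2) ∨ v = (u.1, u.2 + 1)) : s(u, v) ∉ O := by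
  intro hO
  obtain ⟨⟨hu, s, hs, hsu⟩, hv, hv'⟩ := h
  exact hv' ⟨hv, s, hs, hsu.tail ⟨huv, hv, hO⟩⟩

private theorem arr_edg {O : Set (Sym2 V)} {k W : ℤ} {d : Fin 4} {z : V} (hd : d.val < 2)
    (h : Arr O k W d z) : cr z (z + vec d) ∉ O := by
  obtain ⟨i, j⟩ := z
  have h2 : d = 0 ∨ d = 1 := by
    rcases d with ⟨d, hd'⟩
    simp only at hd
    interval_cases d
    · exact Or.inl rfl
    · exact Or.inr rfl
  rcases h2 with rfl | rfl
  · have e1 : ((i, j) : V) + vec 0 = (i + 1, j) := by simp [vec]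
    have e2 : rp 0 ((i, j) : V) = (i + 1, j) := by simp [rp]
    have e3 : lp 0 ((i, j) : V) = (i + 1, j + 1) := by simp [lp]
    rw [Arr, e2, e3] at h
    rw [e1, cr_right]
    exact step_cs h (Or.inr rfl)
  · have e1 : ((i, j) : V) + vec 1 = (i, j - 1) := by simp [vec, sub_eq_add_neg]
    have e2 : rp 1 ((i, j) : V) = (i, j) := by simp [rp]
    have e3 : lp 1 ((i, j) : V) = (i + 1, j) := by simp [lp]
    rw [Arr, e2, e3] at h
    have h4 := cr_up i (j - 1)
    rw [sub_add_cancel] at h4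
    rw [e1, cr_comm, h4]
    exact step_cs h (Or.inl rfl)

private theorem adj_vec (d : Fin 4) (z : V) : lattice.Adj z (z + vec d) := by
  obtain ⟨i, j⟩ := z
  rw [adj_iff]
  fin_cases d <;> simp [vec]

private theorem cr_inj {z z' w w' : V} (hz : lattice.Adj z z') (hw : lattice.Adj w w')
    (h : cr z z' = cr w w') : z = w ∨ z = w' := by
  obtain ⟨a, b⟩ := z
  obtain ⟨a', b'⟩ := z'
  obtain ⟨c, d⟩ := w
  obtain ⟨c', d'⟩ := w'
  have key : ∀ {a b a' b' : ℤ}, lattice.Adj ((a, b) : V) (a', b') →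
      (a' = a + 1 ∧ b' = b ∧ cr ((a, b) : V) (a', b') = s((a + 1, b), (a + 1, b + 1))) ∨
      (a' = a - 1 ∧ b' = b ∧ cr ((a, b) : V) (a', b') = s((a, b), (a, b + 1))) ∨
      (a' = a ∧ b' = b + 1 ∧ cr ((a, b) : V) (a', b') = s((a, b + 1), (a + 1, b + 1))) ∨
      (a' = a ∧ b' = b - 1 ∧ cr ((a, b) : V) (a', b') = s((a, b), (a + 1, b))) := by
    intro a b a' b' h
    rcases adj4 h with h | h | h | h <;> simp only [Prod.mk.injEq] at h <;> obtain ⟨rfl, rfl⟩ := h
    · exact Or.inl ⟨rfl, rfl, cr_right _ _⟩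
    · refine Or.inr (Or.inl ⟨by ring, rfl, ?_⟩)
      rw [cr_comm, cr_right]
    · exact Or.inr (Or.inr (Or.inl ⟨rfl, rfl, cr_up _ _⟩))
    · refine Or.inr (Or.inr (Or.inr ⟨rfl, by ring, ?_⟩))
      rw [cr_comm, cr_up]
  rcases key hz with ⟨h1, h2, h3⟩ | ⟨h1, h2, h3⟩ | ⟨h1, h2, h3⟩ | ⟨h1, h2, h3⟩ <;>
  rcases key hw with ⟨h4, h5, h6⟩ | ⟨h4, h5, h6⟩ | ⟨h4, h5, h6⟩ | ⟨h4, h5, h6⟩ <;>
  · rw [h3, h6, Sym2.eq_iff] at h
    simp only [Prod.mk.injEq] at h ⊢
    omega

private theorem walk_list {O : Set (Sym2 V)} {k W : ℤ} {z z1 : V} (p : lattice.Walk z z1)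
    (hp : p.support.Nodup) (ha : ∀ e ∈ p.darts, ∃ d, e.snd = e.fst + vec d ∧ Arr O k W d e.fst) :
    ∃ c : List (Fin 4), (∀ e ∈ edg z c, e ∉ O ∧ ∃ x ∈ p.darts, e = cr x.fst x.snd) ∧
      (edg z c).Nodup ∧ c.length = p.length ∧
      (c.length : ℤ) = 2 * (edg z c).length - ((z1.1 - z1.2) - (z.1 - z.2)) := by
  induction p with
  | nil => exact ⟨[], by simp [edg], by simp [edg], by simp, by simp [edg]⟩
  | @cons z z' z1 h p ih =>
    rw [SimpleGraph.Walk.support_cons, List.nodup_cons] at hp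
    obtain ⟨d, hd1, hd2⟩ := ha ⟨(z, z'), h⟩ (by simp)
    simp only at hd1 hd2
    obtain ⟨c, h1, h2, h3, h4⟩ := ih hp.2 fun e he => ha e (by
      rw [SimpleGraph.Walk.darts_cons]
      exact List.mem_cons_of_mem _ he)
    refine ⟨d :: c, ?_, ?_, ?_, ?_⟩
    · intro e he
      rw [edg, ← hd1, List.mem_append] at he
      rcases he with he | he
      · by_cases hd : d.val < 2
        · rw [if_pos hd, List.mem_singleton] at he
          refine ⟨?_, ⟨(z, z'), h⟩, by simp, he⟩
          rw [he, hd1]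
          exact arr_edg hd hd2
        · rw [if_neg hd] at he
          simp at he
      · obtain ⟨h5, x, hx, h6⟩ := h1 e he
        refine ⟨h5, x, ?_, h6⟩
        rw [SimpleGraph.Walk.darts_cons]
        exact List.mem_cons_of_mem _ hx
    · rw [edg, ← hd1]
      by_cases hd : d.val < 2
      · rw [if_pos hd, List.singleton_append, List.nodup_cons]
        refine ⟨?_, h2⟩
        intro he
        obtain ⟨-, x, hx, h6⟩ := h1 _ he
        rcases cr_inj h x.adj h6 with h7 | h7
        · exact hp.1 (h7 ▸ p.dart_fst_mem_support_of_mem_darts hx)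
        · exact hp.1 (h7 ▸ p.dart_snd_mem_support_of_mem_darts hx)
      · rw [if_neg hd, List.nil_append]
        exact h2
    · simp [h3]
    · rw [edg, ← hd1, List.length_append, List.length_cons]
      push_cast
      rw [h4, hd1]
      fin_cases d <;> simp [vec] <;> ring

private theorem support_mem {O : Set (Sym2 V)} {k W : ℤ} {z z1 : V} (p : lattice.Walk z z1)
    (hz : z ∈ Finset.Icc ((-1, -1) : V) (k, k))
    (ha : ∀ e ∈ p.darts, ∃ d, e.snd = e.fst + vec d ∧ Arr O k W d e.fst) :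
    ∀ v ∈ p.support, v ∈ Finset.Icc ((-1, -1) : V) (k, k) := by
  induction p with
  | nil => simpa using hz
  | @cons z z' z1 h p ih =>
    obtain ⟨d, hd1, hd2⟩ := ha ⟨(z, z'), h⟩ (by simp)
    simp only at hd1 hd2
    have hz' : z' ∈ Finset.Icc ((-1, -1) : V) (k, k) := by
      rw [hd1]
      obtain ⟨i, j⟩ := z
      obtain ⟨⟨h1, -⟩, h2, -⟩ := hd2
      rw [Finset.mem_Icc, Prod.le_def, Prod.le_def] at hz ⊢
      fin_cases d <;>
      · simp [rp, lp, vec, Rec] at h1 h2 hz ⊢
        omega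
    intro v hv
    rw [SimpleGraph.Walk.support_cons, List.mem_cons] at hv
    rcases hv with rfl | hv
    · exact hz
    · exact ih hz' (fun e he => ha e (by
        rw [SimpleGraph.Walk.darts_cons]
        exact List.mem_cons_of_mem _ he)) v hv

open Classical in
/-- indicator -/
private noncomputable def ind (p : Prop) : ℤ := if p then 1 else 0

/-- signed count of the crossings of the edge `u v` -/
private noncomputable def tt (O : Set (Sym2 V)) (k W : ℤ) (u v : V) : ℤ :=
  ind (Ar O k W u v) - ind (Ar O k W v u)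

private theorem tt_in {O : Set (Sym2 V)} {k W : ℤ} {u v : V} (hu : u ∈ Rec 0 k 0 k)
    (hv : v ∈ Rec 0 k 0 k) : tt O k W u v = ind (u ∈ Cs O k W) - ind (v ∈ Cs O k W) := by
  unfold tt ind Ar
  by_cases h1 : u ∈ Cs O k W <;> by_cases h2 : v ∈ Cs O k W <;> simp [h1, h2, hu, hv]

private theorem tt_out {O : Set (Sym2 V)} {k W : ℤ} {u v : V}
    (h : u ∉ Rec 0 k 0 k ∨ v ∉ Rec 0 k 0 k) : tt O k W u v = 0 := by
  unfold tt ind Ar
  rcases h with h | h
  · have h1 : u ∉ Cs O k W := fun h' => h h'.1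
    simp [h1, h]
  · have h1 : v ∉ Cs O k W := fun h' => h h'.1
    simp [h1, h]

/-- out minus in -/
private noncomputable def dv (O : Set (Sym2 V)) (k W : ℤ) (z : V) : ℤ :=
  tt O k W (z.1, z.2) (z.1 + 1, z.2) + tt O k W (z.1 + 1, z.2) (z.1 + 1, z.2 + 1) +
    tt O k W (z.1 + 1, z.2 + 1) (z.1, z.2 + 1) + tt O k W (z.1, z.2 + 1) (z.1, z.2)

private theorem dv_eq (O : Set (Sym2 V)) (k W : ℤ) (z : V) :
    dv O k W z = ∑ d : Fin 4, (ind (Arr O k W d z) - ind (Arr O k W d (z - vec d))) := by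
  obtain ⟨i, j⟩ := z
  rw [Fin.sum_univ_four]
  have e0 : rp 0 ((i, j) : V) = (i + 1, j) := by simp [rp]
  have e1 : lp 0 ((i, j) : V) = (i + 1, j + 1) := by simp [lp]
  have e2 : rp 1 ((i, j) : V) = (i, j) := by simp [rp]
  have e3 : lp 1 ((i, j) : V) = (i + 1, j) := by simp [lp]
  have e4 : rp 2 ((i, j) : V) = (i, j + 1) := by simp [rp]
  have e5 : lp 2 ((i, j) : V) = (i, j) := by simp [lp]
  have e6 : rp 3 ((i, j) : V) = (i + 1, j + 1) := by simp [rp]
  have e7 : lp 3 ((i, j) : V) = (i, j + 1) := by simp [lp]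
  have f0 : rp 0 ((i, j) - vec 0 : V) = (i, j) := by simp [rp, vec]
  have f1 : lp 0 ((i, j) - vec 0 : V) = (i, j + 1) := by simp [lp, vec]
  have f2 : rp 1 ((i, j) - vec 1 : V) = (i, j + 1) := by simp [rp, vec]
  have f3 : lp 1 ((i, j) - vec 1 : V) = (i + 1, j + 1) := by simp [lp, vec]
  have f4 : rp 2 ((i, j) - vec 2 : V) = (i + 1, j + 1) := by simp [rp, vec]
  have f5 : lp 2 ((i, j) - vec 2 : V) = (i + 1, j) := by simp [lp, vec]
  have f6 : rp 3 ((i, j) - vec 3 : V) = (i + 1, j) := by simp [rp, vec]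
  have f7 : lp 3 ((i, j) - vec 3 : V) = (i, j) := by simp [lp, vec]
  unfold dv tt Arr
  rw [e0, e1, e2, e3, e4, e5, e6, e7, f0, f1, f2, f3, f4, f5, f6, f7]
  ring

private theorem dv_int {O : Set (Sym2 V)} {k W i j : ℤ} (hi : 0 ≤ i) (hi' : i < k) (hj : 0 ≤ j)
    (hj' : j < k) : dv O k W (i, j) = 0 := by
  unfold dv
  rw [tt_in (by rw [rec_iff]; simp only; omega) (by rw [rec_iff]; simp only; omega),
    tt_in (by rw [rec_iff]; simp only; omega) (by rw [rec_iff]; simp only; omega),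
    tt_in (by rw [rec_iff]; simp only; omega) (by rw [rec_iff]; simp only; omega),
    tt_in (by rw [rec_iff]; simp only; omega) (by rw [rec_iff]; simp only; omega)]
  ring

private theorem dv_left {O : Set (Sym2 V)} {k W j : ℤ} (hj : 0 ≤ j) (hj' : j < k) :
    dv O k W (-1, j) = ind ((0, j) ∈ Cs O k W) - ind ((0, j + 1) ∈ Cs O k W) := by
  unfold dv
  rw [tt_out (u := ((-1, j) : V)) (Or.inl (by rw [rec_iff]; omega)),
    tt_in (by rw [rec_iff]; simp only; omega) (by rw [rec_iff]; simp only; omega),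
    tt_out (Or.inr (by rw [rec_iff]; simp only; omega)),
    tt_out (Or.inr (by rw [rec_iff]; simp only; omega))]
  simp

private theorem dv_top {O : Set (Sym2 V)} {k W i : ℤ} (hi : 0 ≤ i) (hi' : i < k) :
    dv O k W (i, k) = ind ((i, k) ∈ Cs O k W) - ind ((i + 1, k) ∈ Cs O k W) := by
  unfold dv
  rw [tt_in (by rw [rec_iff]; simp only; omega) (by rw [rec_iff]; simp only; omega),
    tt_out (Or.inr (by rw [rec_iff]; simp only; omega)),
    tt_out (Or.inr (by rw [rec_iff]; simp only; omega)),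
    tt_out (Or.inl (by rw [rec_iff]; simp only; omega))]
  simp

private theorem dv_corner {O : Set (Sym2 V)} {k W i j : ℤ} (h : (i = -1 ∨ i = k) ∧ (j = -1 ∨ j = k)) :
    dv O k W (i, j) = 0 := by
  unfold dv
  have key : ∀ u v : V, (u.1 < 0 ∨ k < u.1 ∨ u.2 < 0 ∨ k < u.2 ∨ v.1 < 0 ∨ k < v.1 ∨ v.2 < 0 ∨
      k < v.2) → tt O k W u v = 0 := by
    intro u v h
    refine tt_out ?_
    by_contra hcon
    rw [not_or, not_not, not_not] at hcon
    obtain ⟨⟨h1, h2, h3, h4⟩, h5, h6, h7, h8⟩ := hcon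
    omega
  rw [key _ _ (by simp only; omega), key _ _ (by simp only; omega), key _ _ (by simp only; omega),
    key _ _ (by simp only; omega)]
  simp

open Classical in
private theorem flow {O : Set (Sym2 V)} {k W : ℤ} (Z : Finset V)
    (hZ : ∀ z ∈ Z, ∀ d, Arr O k W d z → z + vec d ∈ Z) : ∑ z ∈ Z, dv O k W z ≤ 0 := by
  simp_rw [dv_eq]
  rw [Finset.sum_comm]
  refine Finset.sum_nonpos fun d _ => ?_
  rw [Finset.sum_sub_distrib, sub_nonpos]
  unfold ind
  rw [Finset.sum_boole, Finset.sum_boole, Nat.cast_le]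
  refine Finset.card_le_card_of_injOn (fun z => z + vec d) ?_ ?_
  · intro z hz
    rw [Finset.mem_coe, Finset.mem_filter] at hz ⊢
    refine ⟨hZ z hz.1 d hz.2, ?_⟩
    rw [add_sub_cancel_right]
    exact hz.2
  · intro z _ z' _ h
    exact add_right_cancel h

open Classical in
/-- the finset of the possible starts -/
private noncomputable def SF (k : ℕ) : Finset V :=
  (Finset.range k).image (fun j : ℕ => ((-1, (j : ℤ)) : V)) ∪
    (Finset.range k).image (fun i : ℕ => (((i : ℤ), (k : ℤ)) : V))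

private theorem mem_SF {k : ℕ} {z : V} : z ∈ SF k ↔ Start k z := by
  unfold SF Start
  rw [Finset.mem_union, Finset.mem_image, Finset.mem_image]
  obtain ⟨i, j⟩ := z
  simp only [Finset.mem_range, Prod.mk.injEq]
  constructor
  · rintro (⟨a, h1, h2, h3⟩ | ⟨a, h1, h2, h3⟩)
    · left
      omega
    · right
      omega
  · rintro (⟨h1, h2, h3⟩ | ⟨h1, h2, h3⟩)
    · exact Or.inl ⟨j.toNat, by omega, by omega, by omega⟩
    · exact Or.inr ⟨i.toNat, by omega, by omega, by omega⟩

private theorem sum_SF {O : Set (Sym2 V)} {k : ℕ} {W : ℤ} :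
    ∑ z ∈ SF k, dv O k W z = ind ((0, 0) ∈ Cs O k W) - ind (((k : ℤ), (k : ℤ)) ∈ Cs O k W) := by
  classical
  unfold SF
  rw [Finset.sum_union, Finset.sum_image, Finset.sum_image]
  · have h1 : ∑ j ∈ Finset.range k, dv O k W (-1, (j : ℤ)) =
        ∑ j ∈ Finset.range k, (ind ((0, ((j : ℕ) : ℤ)) ∈ Cs O k W) -
          ind ((0, (((j + 1 : ℕ)) : ℤ)) ∈ Cs O k W)) := by
      refine Finset.sum_congr rfl fun j hj => ?_
      have hj' := Finset.mem_range.1 hj
      rw [dv_left (by omega) (by omega)]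
      push_cast
      rfl
    have h2 : ∑ j ∈ Finset.range k, dv O k W ((j : ℤ), (k : ℤ)) =
        ∑ j ∈ Finset.range k, (ind ((((j : ℕ) : ℤ), (k : ℤ)) ∈ Cs O k W) -
          ind (((((j + 1 : ℕ)) : ℤ), (k : ℤ)) ∈ Cs O k W)) := by
      refine Finset.sum_congr rfl fun j hj => ?_
      have hj' := Finset.mem_range.1 hj
      rw [dv_top (by omega) (by omega)]
      push_cast
      rfl
    rw [h1, h2, Finset.sum_range_sub' (fun j : ℕ => ind ((0, (j : ℤ)) ∈ Cs O k W)),
      Finset.sum_range_sub' (fun j : ℕ => ind (((j : ℤ), (k : ℤ)) ∈ Cs O k W))]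
    push_cast
    ring
  · intro a _ b _ h
    simpa using h
  · intro a _ b _ h
    simpa using h
  · rw [Finset.disjoint_left]
    intro z h1 h2
    rw [Finset.mem_image] at h1 h2
    obtain ⟨a, -, rfl⟩ := h1
    obtain ⟨b, -, h3⟩ := h2
    simp only [Prod.mk.injEq] at h3
    omega

private theorem ex_first {z z1 : V} (w : lattice.Walk z z1) (h : z ≠ z1) :
    ∃ e ∈ w.darts, e.fst = z := by
  cases w with
  | nil => exact absurd rfl h
  | @cons z z' z1 h' p => exact ⟨⟨(z, z'), h'⟩, by simp, rfl⟩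

private theorem ex_last {z z1 : V} (w : lattice.Walk z z1) (h : z ≠ z1) :
    ∃ e ∈ w.darts, e.snd = z1 := by
  induction w with
  | nil => exact absurd rfl h
  | @cons z z' z1 h' p ih =>
    by_cases hz : z' = z1
    · exact ⟨⟨(z, z'), h'⟩, by simp, hz⟩
    · obtain ⟨e, he, h⟩ := ih hz
      exact ⟨e, by simp [he], h⟩

private theorem rec_of {O : Set (Sym2 V)} {k W : ℤ} {d : Fin 4} {z : V} (h : Arr O k W d z) :
    (0 ≤ (rp d z).1 ∧ (rp d z).1 ≤ k ∧ 0 ≤ (rp d z).2 ∧ (rp d z).2 ≤ k) ∧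
      (0 ≤ (lp d z).1 ∧ (lp d z).1 ≤ k ∧ 0 ≤ (lp d z).2 ∧ (lp d z).2 ≤ k) := ⟨h.1.1, h.2.1⟩

/-- first and last step of a contour -/
private theorem out_left {O : Set (Sym2 V)} {k W j : ℤ} {d : Fin 4} (h : Arr O k W d (-1, j)) :
    ((0, j + 1) : V) ∈ Rec 0 k 0 k ∧ ((0, j + 1) : V) ∉ Cs O k W := by
  have h1 := rec_of h
  fin_cases d
  · have e : lp 0 ((-1, j) : V) = (0, j + 1) := by simp [lp]
    have h2 := h.2
    rw [show lp (⟨0, by omega⟩ : Fin 4) ((-1, j) : V) = (0, j + 1) from e] at h2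
    exact h2
  all_goals
    exfalso
    simp [rp, lp] at h1

private theorem out_top {O : Set (Sym2 V)} {k W i : ℤ} {d : Fin 4} (h : Arr O k W d (i, k)) :
    ((i, k) : V) ∈ Cs O k W := by
  have h1 := rec_of h
  fin_cases d
  · exfalso
    simp [rp, lp] at h1
  · have e : rp 1 ((i, k) : V) = (i, k) := by simp [rp]
    have h2 := h.1
    rw [show rp (⟨1, by omega⟩ : Fin 4) ((i, k) : V) = (i, k) from e] at h2
    exact h2
  all_goals
    exfalso
    simp [rp, lp] at h1

private theorem in_bottom {O : Set (Sym2 V)} {k W i : ℤ} {d : Fin 4} {z : V}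
    (h : Arr O k W d z) (hz : ((i, -1) : V) = z + vec d) :
    ((i + 1, 0) : V) ∈ Rec 0 k 0 k ∧ ((i + 1, 0) : V) ∉ Cs O k W := by
  have hz' : z = (i, -1) - vec d := by rw [hz, add_sub_cancel_right]
  subst hz'
  have h1 := rec_of h
  fin_cases d
  · exfalso
    simp [rp, lp, vec] at h1
  · have e : lp 1 ((i, -1) - vec 1 : V) = (i + 1, 0) := by simp [lp, vec]
    have h2 := h.2
    rw [show lp (⟨1, by omega⟩ : Fin 4) ((i, -1) - vec (⟨1, by omega⟩ : Fin 4) : V) =
      (i + 1, 0) from e] at h2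
    exact h2
  all_goals
    exfalso
    simp [rp, lp, vec] at h1

private theorem in_right {O : Set (Sym2 V)} {k W j : ℤ} {d : Fin 4} {z : V}
    (h : Arr O k W d z) (hz : ((k, j) : V) = z + vec d) : ((k, j) : V) ∈ Cs O k W := by
  have hz' : z = (k, j) - vec d := by rw [hz, add_sub_cancel_right]
  subst hz'
  have h1 := rec_of h
  fin_cases d
  · have e : rp 0 ((k, j) - vec 0 : V) = (k, j) := by simp [rp, vec]
    have h2 := h.1
    rw [show rp (⟨0, by omega⟩ : Fin 4) ((k, j) - vec (⟨0, by omega⟩ : Fin 4) : V) =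
      (k, j) from e] at h2
    exact h2
  all_goals
    exfalso
    simp [rp, lp, vec] at h1

theorem contour {O : Set (Sym2 V)} {k W : ℤ} (hk : 0 < k) (hW : 0 ≤ W) (hWk : W ≤ k)
    (h : Block O k W) : ∃ (z : V) (c : List (Fin 4)), Start k z ∧ (edg z c).Nodup ∧
      (∀ e ∈ edg z c, e ∉ O) ∧ c.length ≤ 2 * (edg z c).length ∧ W ≤ (c.length : ℤ) ∧
      (c.length : ℤ) ≤ (k + 2) ^ 2 := by
  classical
  lift k to ℕ using hk.le
  have hk' : 0 < k := by exact_mod_cast hk
  -- reachable dual vertices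
  let Re : V → Prop := fun z => ∃ z0, Start k z0 ∧ ∃ w : lattice.Walk z0 z,
    ∀ e ∈ w.darts, ∃ d, e.snd = e.fst + vec d ∧ Arr O k W d e.fst
  have hF : ∀ z, Re z → z ∈ Finset.Icc ((-1, -1) : V) (k, k) := by
    rintro z ⟨z0, h0, w, hw⟩
    refine support_mem w ?_ hw z w.end_mem_support
    rw [Finset.mem_Icc, Prod.le_def, Prod.le_def]
    rcases h0 with h0 | h0 <;> simp only <;> omega
  have hstep : ∀ z, Re z → ∀ d, Arr O k W d z → Re (z + vec d) := by
    rintro z ⟨z0, h0, w, hw⟩ d hd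
    refine ⟨z0, h0, w.concat (adj_vec d z), ?_⟩
    intro e he
    rw [SimpleGraph.Walk.darts_concat, List.concat_eq_append, List.mem_append,
      List.mem_singleton] at he
    rcases he with he | rfl
    · exact hw e he
    · exact ⟨d, rfl, hd⟩
  have hstart : ∀ z, Start k z → Re z := fun z hz => ⟨z, hz, SimpleGraph.Walk.nil, by simp⟩
  -- the square corners
  have h00 : ((0, 0) : V) ∈ Cs O k W := by
    refine ⟨?_, (0, 0), Or.inl ⟨rfl, le_rfl, hW⟩, Relation.ReflTransGen.refl⟩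
    rw [rec_iff]
    omega
  have hkk : (((k : ℤ), (k : ℤ)) : V) ∉ Cs O k W := fun hc =>
    h _ (Or.inl ⟨rfl, by simp only; omega, le_rfl⟩) hc.2
  -- a vertex of the right or bottom ring is reached
  have hex : ∃ z, Re z ∧ ((z.2 = -1 ∧ 0 ≤ z.1 ∧ z.1 < k) ∨ (z.1 = k ∧ 0 ≤ z.2 ∧ z.2 < k)) := by
    by_contra hcon
    let Z : Finset V := (Finset.Icc ((-1, -1) : V) (k, k)).filter Re
    have h1 := flow (O := O) (k := k) (W := W) Z (fun z hz d hd => by
      rw [Finset.mem_filter] at hz ⊢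
      have := hstep z hz.2 d hd
      exact ⟨hF _ this, this⟩)
    have h2 : ∑ z ∈ SF k, dv O k W z = ∑ z ∈ Z, dv O k W z := by
      refine Finset.sum_subset ?_ ?_
      · intro z hz
        have := hstart z (mem_SF.1 hz)
        exact Finset.mem_filter.2 ⟨hF z this, this⟩
      · intro z hz hz'
        have hzR := (Finset.mem_filter.1 hz).2
        have hzF := (Finset.mem_filter.1 hz).1
        rw [mem_SF] at hz'
        have hz3 : ¬ ((z.2 = -1 ∧ 0 ≤ z.1 ∧ z.1 < k) ∨ (z.1 = k ∧ 0 ≤ z.2 ∧ z.2 < k)) :=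
          fun h => hcon ⟨z, hzR, h⟩
        rw [Finset.mem_Icc, Prod.le_def, Prod.le_def] at hzF
        obtain ⟨i, j⟩ := z
        unfold Start at hz'
        simp only at hz' hz3 hzF
        by_cases hint : 0 ≤ i ∧ i < k ∧ 0 ≤ j ∧ j < k
        · exact dv_int hint.1 hint.2.1 hint.2.2.1 hint.2.2.2
        · exact dv_corner (by omega)
    rw [← h2, sum_SF] at h1
    unfold ind at h1
    rw [if_pos h00, if_neg hkk] at h1
    omega
  obtain ⟨z1, ⟨z0, hz0, w, hw⟩, hz1⟩ := hex
  -- pass to a path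
  have hpath := w.bypass_isPath
  have hdarts : ∀ e ∈ w.bypass.darts, ∃ d, e.snd = e.fst + vec d ∧ Arr O k W d e.fst :=
    fun e he => hw e (w.darts_bypass_subset_darts he)
  obtain ⟨c, h1, h2, h3, h4⟩ := walk_list w.bypass hpath.support_nodup hdarts
  have hlen : c.length ≤ (k + 2) ^ 2 := by
    have h5 := support_mem w.bypass (hF z0 (hstart z0 hz0)) hdarts
    have h6 : w.bypass.support.toFinset ⊆ Finset.Icc ((-1, -1) : V) (k, k) := by
      intro v hv
      exact h5 v (List.mem_toFinset.1 hv)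
    have h7 := Finset.card_le_card h6
    rw [List.toFinset_card_of_nodup hpath.support_nodup, SimpleGraph.Walk.length_support,
      ← h3] at h7
    have h8 : (Finset.Icc ((-1, -1) : V) (k, k)).card = (k + 2) * (k + 2) := by
      have : Finset.Icc ((-1, -1) : V) (k, k) = Finset.Icc (-1 : ℤ) k ×ˢ Finset.Icc (-1 : ℤ) k := rfl
      rw [this, Finset.card_product, Int.card_Icc]
      congr 1 <;> omega
    rw [h8] at h7
    rw [pow_two]
    omega
  -- the potential
  have hne : z0 ≠ z1 := by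
    rintro rfl
    rcases hz0 with h5 | h5 <;> rcases hz1 with h6 | h6 <;> omega
  have hpot0 : z0.1 - z0.2 ≤ -W := by
    obtain ⟨e, he, he'⟩ := ex_first w hne
    obtain ⟨d, -, hd⟩ := hw e he
    rw [he'] at hd
    obtain ⟨i, j⟩ := z0
    rcases hz0 with ⟨h5, h6, h7⟩ | ⟨h5, h6, h7⟩
    · simp only at h5 h6 h7 ⊢
      subst h5
      obtain ⟨h8, h9⟩ := out_left hd
      by_contra hcon
      exact h9 ⟨h8, (0, j + 1), Or.inr ⟨rfl, by simp only; omega, by simp only; omega⟩,
        Relation.ReflTransGen.refl⟩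
    · simp only at h5 h6 h7 ⊢
      subst h5
      have h8 := out_top hd
      by_contra hcon
      exact h _ (Or.inl ⟨rfl, by simp only; omega, by simp only; omega⟩) h8.2
  have hpot1 : 0 ≤ z1.1 - z1.2 := by
    rcases hz1 with ⟨h5, h6, h7⟩ | ⟨h5, h6, h7⟩ <;> omega
  refine ⟨z0, c, hz0, h2, fun e he => (h1 e he).1, ?_, ?_, by exact_mod_cast hlen⟩
  · omega
  · -- the length is at least the difference of the potentials
    have hab : ∀ (z : V) (c : List (Fin 4)), (edg z c).length ≤ c.length := by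
      intro z c
      induction c generalizing z with
      | nil => simp [edg]
      | cons d c ih =>
        rw [edg, List.length_append, List.length_cons]
        have := ih (z + vec d)
        split_ifs <;> simp <;> omega
    have := hab z0 c
    omega

end Pool.Agent.Work.MP_9a767b_pr.L
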