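import Pool.Agent.Work.MP_9a767b_pr.L.Contour
import Pool.Agent.Work.MP_9a767b_pr.GFacts

/-!
# Count: the probability that no target is reached

PROOF. For a nodup list `l` of pairs, `Q ν {ω | ∀ e ∈ l, e ∉ opn r ω} = q^(length l)`, `q = 1 - ν.real {x | |x| ≤ r}`
(`Measure.infinitePi_pi` with the sets `{x | |x| ≤ r}ᶜ`). By `contour` the event is contained in the union over
`z ∈ Start k` (at most `2k` dual vertices), `W ≤ N ≤ (k+2)^2` and `c : Fin N → Fin 4` (`List.ofFn`; `4^N` lists) with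
`(edg z c).Nodup` and `N ≤ 2 (edg z c).length`, of these events, each of probability
`q^(length) ≤ q^(N/2) = (√q)^N` (`0 ≤ q ≤ 1`; real exponent or `√`). So the probability is at most
`2 k ∑_{N ≥ W} (4 √q)^N ≤ 2 k (4√q)^W / (1 - 4√q)`. (Finite unions: `measureReal_biUnion_finset_le`.)
-/

open MeasureTheory ProbabilityTheory Filter Topology

namespace Pool.Agent.Work.MP_9a767b_pr.L

open Z

private theorem prob_closed {ν : Measure ℝ} [IsProbabilityMeasure ν] (r : ℝ)
    (l : List (Sym2 V)) (hl : l.Nodup) :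
    (Q ν).real {ω | ∀ e ∈ l, e ∉ opn r ω} = (1 - ν.real {x | |x| ≤ r}) ^ l.length := by
  classical
  have hms : MeasurableSet {x : ℝ | |x| ≤ r} := measurableSet_le measurable_id.abs measurable_const
  have h1 : {ω : Cfg | ∀ e ∈ l, e ∉ opn r ω} =
      Set.pi (l.toFinset : Set (Sym2 V)) (fun _ => {x : ℝ | |x| ≤ r}ᶜ) := by
    ext ω
    simp only [Set.mem_ofPred_eq, Set.mem_pi, Finset.mem_coe, List.mem_toFinset, opn,
      Set.mem_compl_iff]
  unfold Q
  rw [h1, Measure.real, Measure.infinitePi_pi _ (fun _ _ => hms.compl), Finset.prod_const,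
    List.toFinset_card_of_nodup hl, ENNReal.toReal_pow]
  congr 1
  exact probReal_compl_eq_one_sub hms

/-- one contour -/
private def Ac (r : ℝ) (z : V) (N : ℕ) (c : Fin N → Fin 4) : Set Cfg :=
  {ω | (edg z (List.ofFn c)).Nodup ∧ N ≤ 2 * (edg z (List.ofFn c)).length ∧
    ∀ e ∈ edg z (List.ofFn c), e ∉ opn r ω}

private theorem prob_Ac {ν : Measure ℝ} [IsProbabilityMeasure ν] (r : ℝ) (z : V) (N : ℕ)
    (c : Fin N → Fin 4) :
    (Q ν).real (Ac r z N c) ≤ √(1 - ν.real {x | |x| ≤ r}) ^ N := by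
  have hq0 : 0 ≤ 1 - ν.real {x | |x| ≤ r} := sub_nonneg.2 measureReal_le_one
  have hq1 : 1 - ν.real {x | |x| ≤ r} ≤ 1 := by
    have : 0 ≤ ν.real {x | |x| ≤ r} := measureReal_nonneg
    linarith
  have hs1 : √(1 - ν.real {x | |x| ≤ r}) ≤ 1 := by
    rw [Real.sqrt_le_one]
    exact hq1
  by_cases h : (edg z (List.ofFn c)).Nodup ∧ N ≤ 2 * (edg z (List.ofFn c)).length
  · have h1 : Ac r z N c = {ω | ∀ e ∈ edg z (List.ofFn c), e ∉ opn r ω} := by
      ext ω
      exact ⟨fun h' => h'.2.2, fun h' => ⟨h.1, h.2, h'⟩⟩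
    rw [h1, prob_closed r _ h.1]
    have h2 : (1 - ν.real {x | |x| ≤ r}) ^ (edg z (List.ofFn c)).length =
        √(1 - ν.real {x | |x| ≤ r}) ^ (2 * (edg z (List.ofFn c)).length) := by
      rw [pow_mul, Real.sq_sqrt hq0]
    rw [h2]
    exact pow_le_pow_of_le_one (Real.sqrt_nonneg _) hs1 h.2
  · have h1 : Ac r z N c = ∅ := by
      ext ω
      simp only [Set.mem_empty_iff_false, iff_false]
      exact fun h' => h ⟨h'.1, h'.2.1⟩
    rw [h1, measureReal_empty]
    positivity

open Classical in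
/-- the finset of the possible starts -/
private noncomputable def SF (k : ℕ) : Finset V :=
  (Finset.range k).image (fun j : ℕ => ((-1, (j : ℤ)) : V)) ∪
    (Finset.range k).image (fun i : ℕ => (((i : ℤ), (k : ℤ)) : V))

private theorem mem_SF {k : ℕ} {z : V} (h : Start k z) : z ∈ SF k := by
  unfold SF
  unfold Start at h
  rw [Finset.mem_union, Finset.mem_image, Finset.mem_image]
  obtain ⟨i, j⟩ := z
  simp only [Finset.mem_range, Prod.mk.injEq] at h ⊢
  rcases h with ⟨h1, h2, h3⟩ | ⟨h1, h2, h3⟩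
  · exact Or.inl ⟨j.toNat, by omega, by omega, by omega⟩
  · exact Or.inr ⟨i.toNat, by omega, by omega, by omega⟩

private theorem card_SF (k : ℕ) : (SF k).card ≤ 2 * k := by
  classical
  unfold SF
  refine (Finset.card_union_le _ _).trans ?_
  have h1 := Finset.card_image_le (s := Finset.range k) (f := fun j : ℕ => ((-1, (j : ℤ)) : V))
  have h2 := Finset.card_image_le (s := Finset.range k)
    (f := fun i : ℕ => (((i : ℤ), (k : ℤ)) : V))
  rw [Finset.card_range] at h1 h2
  omega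

theorem block_prob {ν : Measure ℝ} [IsProbabilityMeasure ν] {r : ℝ}
    (hr : 15 / 16 < ν.real {x | |x| ≤ r}) {k W : ℕ} (hk : 0 < k) (hWk : W ≤ k) :
    (Q ν).real {ω | Block (opn r ω) k W} ≤
      2 * k * ((4 * √(1 - ν.real {x | |x| ≤ r})) ^ W / (1 - 4 * √(1 - ν.real {x | |x| ≤ r}))) := by
  have hQ : IsProbabilityMeasure (Q ν) := by unfold Q; infer_instance
  set s := √(1 - ν.real {x | |x| ≤ r}) with hs
  have hs0 : 0 ≤ s := Real.sqrt_nonneg _
  have hs1 : 4 * s < 1 := by
    have h1 : s < 1 / 4 := by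
      rw [hs, Real.sqrt_lt' (by norm_num)]
      linarith
    linarith
  have hsub : {ω : Cfg | Block (opn r ω) k W} ⊆ ⋃ z ∈ SF k,
      ⋃ N ∈ Finset.Ico W ((k + 2) ^ 2 + 1), ⋃ c ∈ (Finset.univ : Finset (Fin N → Fin 4)),
        Ac r z N c := by
    intro ω hω
    obtain ⟨z, c, hz, h1, h2, h3, h4, h5⟩ := contour (by exact_mod_cast hk) (by positivity)
      (by exact_mod_cast hWk) hω
    simp only [Set.mem_iUnion]
    refine ⟨z, mem_SF hz, c.length, ?_, fun i => c.get i, Finset.mem_univ _, ?_⟩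
    · rw [Finset.mem_Ico]
      have h6 : W ≤ c.length := by exact_mod_cast h4
      have h7 : c.length ≤ (k + 2) ^ 2 := by exact_mod_cast h5
      exact ⟨h6, Nat.lt_succ_of_le h7⟩
    · unfold Ac
      rw [List.ofFn_get]
      exact ⟨h1, h3, h2⟩
  have hmono : (Q ν).real {ω : Cfg | Block (opn r ω) k W} ≤ (Q ν).real (⋃ z ∈ SF k,
      ⋃ N ∈ Finset.Ico W ((k + 2) ^ 2 + 1), ⋃ c ∈ (Finset.univ : Finset (Fin N → Fin 4)),
        Ac r z N c) := measureReal_mono hsub (measure_ne_top _ _)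
  refine hmono.trans ((measureReal_biUnion_finset_le _ _).trans ?_)
  have hz : ∀ z ∈ SF k, (Q ν).real (⋃ N ∈ Finset.Ico W ((k + 2) ^ 2 + 1),
      ⋃ c ∈ (Finset.univ : Finset (Fin N → Fin 4)), Ac r z N c) ≤ (4 * s) ^ W / (1 - 4 * s) := by
    intro z _
    refine (measureReal_biUnion_finset_le _ _).trans ?_
    refine le_trans (Finset.sum_le_sum (g := fun N => (4 * s) ^ N) fun N _ => ?_)
      (geom_sum_Ico_le_of_lt_one (by positivity) hs1)
    refine (measureReal_biUnion_finset_le _ _).trans ?_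
    refine (Finset.sum_le_sum fun c _ => prob_Ac (ν := ν) r z N c).trans ?_
    rw [Finset.sum_const, Finset.card_univ, Fintype.card_fun, Fintype.card_fin, Fintype.card_fin,
      nsmul_eq_mul, mul_pow, ← hs]
    push_cast
    exact le_rfl
  refine (Finset.sum_le_sum hz).trans ?_
  rw [Finset.sum_const, nsmul_eq_mul]
  have hc : ((SF k).card : ℝ) ≤ 2 * k := by exact_mod_cast card_SF k
  exact mul_le_mul_of_nonneg_right hc (div_nonneg (by positivity) (by linarith))

end Pool.Agent.Work.MP_9a767b_pr.L
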