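import Pool.Agent.Work.MP_9a767b_pr.Z.Elem

/-!
# Large atoms, d = 2: definitions

GOAL: if `ν {x | |x| ≤ r} > 15/16` then `Nm (g ν) 1 1 ≤ 2 r`; if all weights are at least `r > 0` and `ν ≠ δ_r`,
then `r < Nm (g ν) 1 0`. So in both cases the limit shape is not the diamond. The first is a contour argument
for oriented percolation (steps to the right and up) in the square `Rec 0 k 0 k`, from the sources (the
vertices of the bottom side and of the left side at distance at most `W` from the corner `(0,0)`) to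
the targets (the vertices of the top side and of the right side at distance at most `W` from `(k,k)`).
Dual vertices are labelled as in `Z/Defs.lean`: `z = (i,j)` is the point `(i+1/2, j+1/2)`. The four
directions are coded by `Fin 4`: `0` = east `(1,0)`, `1` = south `(0,-1)`, `2` = west `(-1,0)`, `3` = north `(0,1)`.
-/

open MeasureTheory ProbabilityTheory Filter Topology

namespace Pool.Agent.Work.MP_9a767b_pr.L

open Z

/-- The edges of weight at most `r`. -/
def opn (r : ℝ) (ω : Cfg) : Set (Sym2 V) := {e | |ω e| ≤ r}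

/-- A directed step (to the right or up) in the square `Rec 0 k 0 k` along an edge in `O`. -/
def Stp (O : Set (Sym2 V)) (k : ℤ) (u v : V) : Prop :=
  (v = (u.1 + 1, u.2) ∨ v = (u.1, u.2 + 1)) ∧ v ∈ Rec 0 k 0 k ∧ s(u, v) ∈ O

/-- The sources. -/
def Src (W : ℤ) (v : V) : Prop :=
  (v.2 = 0 ∧ 0 ≤ v.1 ∧ v.1 ≤ W) ∨ (v.1 = 0 ∧ 0 ≤ v.2 ∧ v.2 ≤ W)

/-- The targets. -/
def Tgt (k W : ℤ) (v : V) : Prop :=
  (v.2 = k ∧ k - W ≤ v.1 ∧ v.1 ≤ k) ∨ (v.1 = k ∧ k - W ≤ v.2 ∧ v.2 ≤ k)

/-- The vertices reached from the sources. -/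
def Wet (O : Set (Sym2 V)) (k W : ℤ) (v : V) : Prop :=
  ∃ s : V, Src W s ∧ Relation.ReflTransGen (Stp O k) s v

/-- No target is reached. -/
def Block (O : Set (Sym2 V)) (k W : ℤ) : Prop := ∀ v : V, Tgt k W v → ¬ Wet O k W v

/-- The vector of a direction. -/
def vec (d : Fin 4) : V := ![(1, 0), (0, -1), (-1, 0), (0, 1)] d

/-- The edges crossed by the steps to the east and to the south of the dual walk with the start `z` and
the directions `c`. -/
def edg : V → List (Fin 4) → List (Sym2 V)
  | _, [] => []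
  | z, d :: c => (if d.val < 2 then [cr z (z + vec d)] else []) ++ edg (z + vec d) c

/-- The possible starts of a contour: the dual vertices to the left of the left side and above the
top side. -/
def Start (k : ℤ) (z : V) : Prop :=
  (z.1 = -1 ∧ 0 ≤ z.2 ∧ z.2 < k) ∨ (z.2 = k ∧ 0 ≤ z.1 ∧ z.1 < k)

end Pool.Agent.Work.MP_9a767b_pr.L
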