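import Pool.Agent.Work.MP_9a767b_pr.L.Defs
import Pool.Agent.Work.MP_9a767b_pr.GFacts

/-!
# Upper: a reached target gives a fast path (deterministic)

PROOF. If not `Block (opn r ω) k W`, there are a source `s` and a target `t` and a chain of directed steps
from `s` to `t` along edges with `|ω e| ≤ r`. The number of steps is
`(t.1 + t.2) - (s.1 + s.2) ≤ 2k`, so `T s t ≤ 2 k r` (induction on the chain, `pt_le_len` or `T_triangle` with
`T u v ≤ |ω s(u,v)|` for adjacent `u`, `v`; `t ∈ Rec 0 k 0 k`, `s` has nonnegative coordinates). `T 0 s` is at most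
the sum of the first or second kind of terms (`s = (i,0)` or `s = (0,i)` with `0 ≤ i ≤ W`, `T_chain` of
`LLN.lean`, all terms are nonnegative), and `T t (k,k)` is at most the sum of the third or fourth kind
of terms (`t = (k-i,k)` or `(k,k-i)`, `0 ≤ i ≤ W`).
-/

open MeasureTheory ProbabilityTheory Filter Topology

namespace Pool.Agent.Work.MP_9a767b_pr.L

open Z

private theorem chain0 (ω : Cfg) (z : ℕ → V) (q : ℕ) :
    T ω (z 0) (z q) ≤ ∑ j ∈ Finset.range q, T ω (z j) (z (j + 1)) := by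
  induction q with
  | zero => simp [T_self]
  | succ q ih =>
    rw [Finset.sum_range_succ]
    have := T_triangle ω (z 0) (z q) (z (q + 1))
    linarith

private theorem part {f g : ℕ → ℝ} {n W : ℕ} (h : n ≤ W) (hf : ∀ i, 0 ≤ f i)
    (hg : ∀ i, f i ≤ g i) : ∑ i ∈ Finset.range n, f i ≤ ∑ i ∈ Finset.range W, g i :=
  (Finset.sum_le_sum_of_subset_of_nonneg (Finset.range_mono h) (fun i _ _ => hf i)).trans
    (Finset.sum_le_sum fun i _ => hg i)

private theorem step_le {ω : Cfg} {r : ℝ} {k : ℤ} {u v : V} (h : Stp (opn r ω) k u v) :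
    T ω u v ≤ r := by
  obtain ⟨h1, -, h3⟩ := h
  have hadj : lattice.Adj u v := by
    rcases h1 with h1 | h1
    · rw [h1]
      exact adj_right u.1 u.2
    · rw [h1]
      exact adj_up u.1 u.2
  refine (pt_le_len (fun _ => abs_nonneg _) (SimpleGraph.Walk.cons hadj .nil)).trans ?_
  have h4 : |ω s(u, v)| ≤ r := h3
  simpa [len] using h4

private theorem chain_le {ω : Cfg} {r : ℝ} {k : ℤ} {s v : V}
    (h : Relation.ReflTransGen (Stp (opn r ω) k) s v) :
    T ω s v ≤ ((v.1 : ℝ) + v.2 - s.1 - s.2) * r := by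
  induction h with
  | refl =>
    rw [T_self]
    ring_nf
    exact le_refl _
  | @tail v w _ h2 ih =>
    have h3 := step_le h2
    have h4 := T_triangle ω s v w
    have h5 : (w.1 : ℝ) + w.2 = v.1 + v.2 + 1 := by
      rcases h2.1 with h1 | h1
      · rw [h1]
        push_cast
        ring
      · rw [h1]
        push_cast
        ring
    rw [h5]
    nlinarith

theorem upper {ω : Cfg} {r : ℝ} (hr : 0 ≤ r) {k W : ℕ} (h : ¬ Block (opn r ω) k W) :
    T ω 0 ((k : ℤ), (k : ℤ)) ≤ 2 * k * r + ∑ i ∈ Finset.range W,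
      (T ω ((i : ℤ), 0) ((i : ℤ) + 1, 0) + T ω (0, (i : ℤ)) (0, (i : ℤ) + 1) +
        T ω ((k : ℤ) - (i + 1), k) ((k : ℤ) - i, k) + T ω ((k : ℤ), (k : ℤ) - (i + 1)) (k, (k : ℤ) - i)) := by
  obtain ⟨v, hv, s, hs, hc⟩ : ∃ v : V, Tgt k W v ∧ ∃ s : V, Src W s ∧
      Relation.ReflTransGen (Stp (opn r ω) k) s v := by
    by_contra hcon
    exact h fun v hv hw => hcon ⟨v, hv, hw⟩
  have h1 : T ω s v ≤ 2 * k * r := by
    refine (chain_le hc).trans (mul_le_mul_of_nonneg_right ?_ hr)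
    have h2 : 0 ≤ s.1 ∧ 0 ≤ s.2 := by
      rcases hs with ⟨a, b, c⟩ | ⟨a, b, c⟩ <;> constructor <;> omega
    have h3 : v.1 ≤ k ∧ v.2 ≤ k := by
      rcases hv with ⟨a, b, c⟩ | ⟨a, b, c⟩ <;> constructor <;> omega
    have h4 : ((v.1 + v.2 - s.1 - s.2 : ℤ) : ℝ) ≤ ((2 * k : ℤ) : ℝ) := by
      exact_mod_cast (by omega : v.1 + v.2 - s.1 - s.2 ≤ 2 * k)
    push_cast at h4
    exact h4
  have h2 : T ω 0 s ≤ ∑ i ∈ Finset.range W,
      (T ω ((i : ℤ), 0) ((i : ℤ) + 1, 0) + T ω (0, (i : ℤ)) (0, (i : ℤ) + 1)) := by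
    rcases hs with ⟨a, b, c⟩ | ⟨a, b, c⟩
    · obtain ⟨n, hn⟩ := Int.eq_ofNat_of_zero_le b
      have e : s = ((n : ℤ), (0 : ℤ)) := Prod.ext hn a
      have h3 := chain0 ω (fun j => ((j : ℤ), (0 : ℤ))) n
      rw [e]
      refine h3.trans (part (by omega) (fun i => T_nonneg _ _ _) fun i => ?_)
      push_cast
      exact le_add_of_nonneg_right (T_nonneg _ _ _)
    · obtain ⟨n, hn⟩ := Int.eq_ofNat_of_zero_le b
      have e : s = ((0 : ℤ), (n : ℤ)) := Prod.ext a hn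
      have h3 := chain0 ω (fun j => ((0 : ℤ), (j : ℤ))) n
      rw [e]
      refine h3.trans (part (by omega) (fun i => T_nonneg _ _ _) fun i => ?_)
      push_cast
      exact le_add_of_nonneg_left (T_nonneg _ _ _)
  have h3 : T ω v ((k : ℤ), (k : ℤ)) ≤ ∑ i ∈ Finset.range W,
      (T ω ((k : ℤ) - (i + 1), k) ((k : ℤ) - i, k) +
        T ω ((k : ℤ), (k : ℤ) - (i + 1)) (k, (k : ℤ) - i)) := by
    rcases hv with ⟨a, b, c⟩ | ⟨a, b, c⟩
    · obtain ⟨n, hn⟩ := Int.eq_ofNat_of_zero_le (by omega : 0 ≤ (k : ℤ) - v.1)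
      have e : v = ((k : ℤ) - n, (k : ℤ)) := Prod.ext (by omega) a
      have h3 := chain0 ω (fun j => ((k : ℤ) - j, (k : ℤ))) n
      rw [e, T_comm]
      simp only [Nat.cast_zero, sub_zero] at h3
      refine h3.trans (part (by omega) (fun i => T_nonneg _ _ _) fun i => ?_)
      rw [T_comm]
      push_cast
      exact le_add_of_nonneg_right (T_nonneg _ _ _)
    · obtain ⟨n, hn⟩ := Int.eq_ofNat_of_zero_le (by omega : 0 ≤ (k : ℤ) - v.2)
      have e : v = ((k : ℤ), (k : ℤ) - n) := Prod.ext a (by omega)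
      have h3 := chain0 ω (fun j => ((k : ℤ), (k : ℤ) - j)) n
      rw [e, T_comm]
      simp only [Nat.cast_zero, sub_zero] at h3
      refine h3.trans (part (by omega) (fun i => T_nonneg _ _ _) fun i => ?_)
      rw [T_comm]
      push_cast
      exact le_add_of_nonneg_left (T_nonneg _ _ _)
  have h4 := T_triangle ω 0 s ((k : ℤ), (k : ℤ))
  have h5 := T_triangle ω s v ((k : ℤ), (k : ℤ))
  have h6 : ∑ i ∈ Finset.range W,
      (T ω ((i : ℤ), 0) ((i : ℤ) + 1, 0) + T ω (0, (i : ℤ)) (0, (i : ℤ) + 1) +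
        T ω ((k : ℤ) - (i + 1), k) ((k : ℤ) - i, k) + T ω ((k : ℤ), (k : ℤ) - (i + 1)) (k, (k : ℤ) - i)) =
      ∑ i ∈ Finset.range W,
      (T ω ((i : ℤ), 0) ((i : ℤ) + 1, 0) + T ω (0, (i : ℤ)) (0, (i : ℤ) + 1)) +
      ∑ i ∈ Finset.range W,
      (T ω ((k : ℤ) - (i + 1), k) ((k : ℤ) - i, k) +
        T ω ((k : ℤ), (k : ℤ) - (i + 1)) (k, (k : ℤ) - i)) := by
    rw [← Finset.sum_add_distrib]
    exact Finset.sum_congr rfl fun i _ => by ring
  rw [h6]
  linarith

end Pool.Agent.Work.MP_9a767b_pr.L
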