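import Pool.Agent.Work.MP_9a767b_pr.L.Count
import Pool.Agent.Work.MP_9a767b_pr.L.Upper
import Pool.Agent.Work.MP_9a767b_pr.LLN
import Pool.Agent.Work.MP_9a767b_pr.LineH

/-!
# Diag: the diagonal time constant is at most `2 r`

PROOF. Let `N = Nm (g ν) 1 1`, `G = g ν (1,0)`, and suppose `N > 2 r`; let `ε = (N - 2r)/ (32 (G+1)) > 0` (and at
most `1`, take the minimum), `W = ⌊ε k⌋₊ ≤ k`. Let `M` be the sum in `upper`; by `integral_T` its expectation is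
`4 W G ≤ 4 ε k G` (all four steps are unit steps, `g ν` has the symmetries of the square, `subSym_g`), so by
Markov's inequality (`lh_markov` of `LineH.lean`, or `mul_meas_ge_le_integral_of_nonneg`)
`Q {M ≥ 16 ε k G + ...} ≤ 1/4`: precisely `Q {M ≥ 16 ε k (G+1)} ≤ 1/4`. For large `k` the event `Block` has
probability at most `1/4` (`block_prob`: `2 k ρ^⌊εk⌋ / (1-ρ) → 0`, `ρ = 4√q < 1` since `q < 1/16`). So with
probability at least `1/2`: `T 0 (k,k) < 2 k r + 16 ε k (G+1) ≤ k (2r + (N-2r)/2) = k (N - (N-2r)/2)`. By `lln`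
(with `u = (1,1)`, `(k : ℤ) • (1,1) = (k,k)`) and Markov the event `|T 0 (k,k) - k N| ≥ k (N-2r)/2` has probability
tending to zero: contradiction for large `k`.
-/

open MeasureTheory ProbabilityTheory Filter Topology

namespace Pool.Agent.Work.MP_9a767b_pr.L

open Z

/-- The sum of the step times near the two corners. -/
private noncomputable def dgM (k W : ℕ) (ω : Cfg) : ℝ := ∑ i ∈ Finset.range W,
      (T ω ((i : ℤ), 0) ((i : ℤ) + 1, 0) + T ω (0, (i : ℤ)) (0, (i : ℤ) + 1) +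
        T ω ((k : ℤ) - (i + 1), k) ((k : ℤ) - i, k) + T ω ((k : ℤ), (k : ℤ) - (i + 1)) (k, (k : ℤ) - i))

private theorem dg_int {ν : Measure ℝ} [IsProbabilityMeasure ν]
    (hI : Integrable (fun ω => T ω 0 (1, 0)) (Q ν)) (k W : ℕ) :
    Integrable (dgM k W) (Q ν) ∧ ∫ ω, |dgM k W ω| ∂(Q ν) ≤ 4 * W * g ν (1, 0) := by
  have hs := subSym_g hI
  have h1 : ∀ x y : V, Integrable (fun ω => T ω x y) (Q ν) := fun x y => integrable_T hI x y
  have hterm : ∀ i ∈ Finset.range W, Integrable (fun ω : Cfg =>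
      (T ω ((i : ℤ), 0) ((i : ℤ) + 1, 0) + T ω (0, (i : ℤ)) (0, (i : ℤ) + 1) +
        T ω ((k : ℤ) - (i + 1), k) ((k : ℤ) - i, k) +
        T ω ((k : ℤ), (k : ℤ) - (i + 1)) (k, (k : ℤ) - i))) (Q ν) := fun i _ =>
    (((h1 _ _).add (h1 _ _)).add (h1 _ _)).add (h1 _ _)
  have hint : Integrable (dgM k W) (Q ν) := by
    unfold dgM
    exact integrable_finsetSum _ hterm
  refine ⟨hint, ?_⟩
  have h2 : ∀ ω, |dgM k W ω| = dgM k W ω := fun ω => by
    refine abs_of_nonneg (Finset.sum_nonneg fun i _ => ?_)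
    have := T_nonneg ω ((i : ℤ), 0) ((i : ℤ) + 1, 0)
    have := T_nonneg ω (0, (i : ℤ)) (0, (i : ℤ) + 1)
    have := T_nonneg ω ((k : ℤ) - (i + 1), k) ((k : ℤ) - i, k)
    have := T_nonneg ω ((k : ℤ), (k : ℤ) - (i + 1)) (k, (k : ℤ) - i)
    positivity
  simp_rw [h2]
  unfold dgM
  rw [integral_finsetSum _ hterm]
  have hg : g ν (0, 1) = g ν (1, 0) := hs.swap 1 0
  have h3 : ∀ i ∈ Finset.range W, ∫ ω,
      (T ω ((i : ℤ), 0) ((i : ℤ) + 1, 0) + T ω (0, (i : ℤ)) (0, (i : ℤ) + 1) +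
        T ω ((k : ℤ) - (i + 1), k) ((k : ℤ) - i, k) +
        T ω ((k : ℤ), (k : ℤ) - (i + 1)) (k, (k : ℤ) - i)) ∂(Q ν) = 4 * g ν (1, 0) := by
    intro i _
    have i2 : Integrable (fun ω => T ω ((i : ℤ), 0) ((i : ℤ) + 1, 0) +
        T ω (0, (i : ℤ)) (0, (i : ℤ) + 1)) (Q ν) := (h1 _ _).add (h1 _ _)
    have i3 : Integrable (fun ω => T ω ((i : ℤ), 0) ((i : ℤ) + 1, 0) +
        T ω (0, (i : ℤ)) (0, (i : ℤ) + 1) + T ω ((k : ℤ) - (i + 1), k) ((k : ℤ) - i, k)) (Q ν) :=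
      i2.add (h1 _ _)
    rw [integral_add i3 (h1 _ _), integral_add i2 (h1 _ _), integral_add (h1 _ _) (h1 _ _),
      integral_T, integral_T, integral_T, integral_T]
    have e1 : (((i : ℤ) + 1, 0) : V) - ((i : ℤ), 0) = (1, 0) := by ext <;> simp
    have e2 : ((0, (i : ℤ) + 1) : V) - (0, (i : ℤ)) = (0, 1) := by ext <;> simp
    have e3 : (((k : ℤ) - i, (k : ℤ)) : V) - ((k : ℤ) - (i + 1), (k : ℤ)) = (1, 0) := by
      ext <;> simp
    have e4 : (((k : ℤ), (k : ℤ) - i) : V) - ((k : ℤ), (k : ℤ) - (i + 1)) = (0, 1) := by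
      ext <;> simp
    rw [e1, e2, e3, e4, hg]
    ring
  rw [Finset.sum_congr rfl h3, Finset.sum_const, Finset.card_range, nsmul_eq_mul]
  exact le_of_eq (by ring)

private theorem dg_lim {ρ : ℝ} (h0 : 0 ≤ ρ) (h1 : ρ < 1) {ε : ℝ} (hε : 0 < ε) :
    ∀ᶠ k : ℕ in atTop, 2 * (k : ℝ) * (ρ ^ ⌊ε * k⌋₊ / (1 - ρ)) ≤ 1 / 4 := by
  -- replace `ρ` by a positive number
  obtain ⟨σ, hσ1, hσ2⟩ := exists_between (max_lt h1 (show (0 : ℝ) < 1 by norm_num))
  have hσ0 : 0 < σ := (le_max_right _ _).trans_lt hσ1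
  have hσρ : ρ ≤ σ := (le_max_left _ _).trans hσ1.le
  set τ : ℝ := σ ^ ε with hτ
  have hτ0 : 0 < τ := Real.rpow_pos_of_pos hσ0 _
  have hτ1 : τ < 1 := Real.rpow_lt_one hσ0.le hσ2 hε
  have hlim : Tendsto (fun k : ℕ => 2 * ((k : ℝ) * τ ^ k) * (1 / (σ * (1 - ρ)))) atTop
      (𝓝 (2 * 0 * (1 / (σ * (1 - ρ))))) :=
    ((tendsto_self_mul_const_pow_of_lt_one hτ0.le hτ1).const_mul 2).mul_const _
  rw [mul_zero, zero_mul] at hlim
  filter_upwards [hlim.eventually_lt_const (show (0 : ℝ) < 1 / 4 by norm_num)] with k hk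
  refine le_trans ?_ hk.le
  have h2 : ρ ^ ⌊ε * k⌋₊ ≤ τ ^ k / σ := by
    calc ρ ^ ⌊ε * k⌋₊ ≤ σ ^ ⌊ε * k⌋₊ := pow_le_pow_left₀ h0 hσρ _
      _ = σ ^ ((⌊ε * k⌋₊ : ℕ) : ℝ) := (Real.rpow_natCast _ _).symm
      _ ≤ σ ^ (ε * k - 1) := by
        refine Real.rpow_le_rpow_of_exponent_ge hσ0 hσ2.le ?_
        have := Nat.lt_floor_add_one (ε * (k : ℝ))
        linarith
      _ = τ ^ k / σ := by
        rw [Real.rpow_sub hσ0, Real.rpow_one, hτ, ← Real.rpow_natCast (σ ^ ε) k,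
          ← Real.rpow_mul hσ0.le]
  have h3 : 0 < 1 - ρ := by linarith
  calc 2 * (k : ℝ) * (ρ ^ ⌊ε * k⌋₊ / (1 - ρ)) ≤ 2 * (k : ℝ) * ((τ ^ k / σ) / (1 - ρ)) := by gcongr
    _ = 2 * ((k : ℝ) * τ ^ k) * (1 / (σ * (1 - ρ))) := by
      field_simp

theorem diag_le {ν : Measure ℝ} [IsProbabilityMeasure ν]
    (hI : Integrable (fun ω => T ω 0 (1, 0)) (Q ν)) {r : ℝ} (h0 : 0 ≤ r)
    (hr : 15 / 16 < ν.real {x | |x| ≤ r}) : Nm (g ν) 1 1 ≤ 2 * r := by
  have hQ : IsProbabilityMeasure (Q ν) := by unfold Q; infer_instance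
  by_contra hcon
  rw [not_le] at hcon
  set N := Nm (g ν) 1 1 with hN
  set G := g ν (1, 0) with hG
  have hG0 : 0 ≤ G := (subSym_g hI).nonneg _
  set d := N - 2 * r with hd
  have hd0 : 0 < d := by linarith
  set ε := min 1 (d / (32 * (G + 1))) with hε
  have hε0 : 0 < ε := lt_min one_pos (by positivity)
  have hε1 : ε ≤ 1 := min_le_left _ _
  have hε2 : 16 * ε * (G + 1) ≤ d / 2 := by
    have h1 : ε ≤ d / (32 * (G + 1)) := min_le_right _ _
    calc 16 * ε * (G + 1) ≤ 16 * (d / (32 * (G + 1))) * (G + 1) := by gcongr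
      _ = d / 2 := by field_simp; ring
  set q := 1 - ν.real {x | |x| ≤ r} with hq
  have hq0 : 0 ≤ q := by
    have : ν.real {x | |x| ≤ r} ≤ 1 := measureReal_le_one
    rw [hq]; linarith
  have hq1 : q < 1 / 16 := by rw [hq]; linarith
  set ρ := 4 * √q with hρ
  have hρ0 : 0 ≤ ρ := by positivity
  have hρ1 : ρ < 1 := by
    have : √q < 1 / 4 := by
      rw [Real.sqrt_lt' (by norm_num)]
      norm_num
      linarith
    rw [hρ]; linarith
  -- the law of large numbers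
  obtain ⟨m0, hm0⟩ := lln hI (1, 1) (ε := d / 16) (by positivity)
  obtain ⟨k, ⟨hk1, hk2⟩, hk3⟩ := (((dg_lim hρ0 hρ1 hε0).and (eventually_ge_atTop m0)).and
    (eventually_gt_atTop 0)).exists
  have hkR : (0 : ℝ) < k := by exact_mod_cast hk3
  set W := ⌊ε * k⌋₊ with hW
  have hWε : (W : ℝ) ≤ ε * k := Nat.floor_le (by positivity)
  have hWk : W ≤ k := by
    have : (W : ℝ) ≤ k := hWε.trans (by nlinarith)
    exact_mod_cast this
  -- the three bad events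
  have hB := block_prob (ν := ν) hr hk3 hWk
  have hB' : (Q ν).real {ω | Block (opn r ω) k W} ≤ 1 / 4 := hB.trans hk1
  obtain ⟨hM1, hM2⟩ := dg_int hI k W
  have hMb : (Q ν).real {ω | 16 * ε * k * (G + 1) ≤ |dgM k W ω|} ≤ 1 / 4 := by
    refine (lh_markov hM1 (c := 16 * ε * k * (G + 1)) (by positivity) hM2).trans ?_
    rw [div_le_iff₀ (by positivity)]
    have : 4 * (W : ℝ) * G ≤ 4 * (ε * k) * (G + 1) := by gcongr; linarith
    nlinarith
  have hL := hm0 k hk2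
  have hLb : (Q ν).real {ω | k * (d / 2) ≤ |T ω 0 ((k : ℤ) • ((1, 1) : V)) - k * N|} ≤ 1 / 8 := by
    have h1 : Integrable (fun ω => T ω 0 ((k : ℤ) • ((1, 1) : V)) - k * N) (Q ν) :=
      (integrable_T hI _ _).sub (integrable_const _)
    have h2 : ∫ ω, |T ω 0 ((k : ℤ) • ((1, 1) : V)) - k * N| ∂(Q ν) ≤ d / 16 * k := by
      have e : Nm (g ν) (((1, 1) : V).1 : ℝ) (((1, 1) : V).2 : ℝ) = N := by
        rw [hN]; norm_num
      rw [e] at hL
      exact hL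
    refine (lh_markov h1 (c := k * (d / 2)) (by positivity) h2).trans ?_
    rw [div_le_iff₀ (by positivity)]
    apply le_of_eq
    ring
  -- the union bound
  have hcov : (Set.univ : Set Cfg) ⊆ ({ω | Block (opn r ω) k W} ∪
      {ω | 16 * ε * k * (G + 1) ≤ |dgM k W ω|}) ∪
      {ω | k * (d / 2) ≤ |T ω 0 ((k : ℤ) • ((1, 1) : V)) - k * N|} := by
    intro ω _
    by_contra hω
    simp only [Set.mem_union, Set.mem_ofPred_eq, not_or, not_le] at hω
    obtain ⟨⟨hω1, hω2⟩, hω3⟩ := hω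
    have h1 := upper h0 hω1
    have e : ((k : ℤ) • ((1, 1) : V)) = ((k : ℤ), (k : ℤ)) := by ext <;> simp
    rw [e] at hω3
    have h2 : dgM k W ω ≤ |dgM k W ω| := le_abs_self _
    have h3 : T ω 0 ((k : ℤ), (k : ℤ)) ≤ 2 * k * r + dgM k W ω := h1
    have h4 := (abs_lt.1 hω3).1
    have h5 : 16 * ε * k * (G + 1) ≤ k * (d / 2) := by
      calc 16 * ε * k * (G + 1) = k * (16 * ε * (G + 1)) := by ring
        _ ≤ k * (d / 2) := by gcongr
    have h6 : (k : ℝ) * N = 2 * k * r + k * d := by rw [hd]; ring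
    nlinarith
  have h1 : (1 : ℝ) ≤ 1 / 4 + 1 / 4 + 1 / 8 := by
    calc (1 : ℝ) = (Q ν).real Set.univ := by simp
      _ ≤ _ := measureReal_mono hcov
      _ ≤ _ := (measureReal_union_le _ _).trans (add_le_add_left (measureReal_union_le _ _) _)
      _ ≤ _ := add_le_add (add_le_add hB' hMb) hLb
  norm_num at h1

end Pool.Agent.Work.MP_9a767b_pr.L
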