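import Pool.Agent.Work.MP_9a767b_pr.GFacts
import Pool.Agent.Work.MP_9a767b_pr.NormB
import Pool.Agent.Work.MP_9a767b_pr.Z.Elem

/-!
# Dirac: constant weights

PROOF. If `ν.real {r} = 1` then almost surely `ω e = r` for all `e` (countably many pairs), and then
`T ω 0 (n,0) = n r`: every walk from `0` to `(n,0)` has length at least `n` (see `nb_len` in `U/NearB.lean`), and the
straight walk has length `n` (`hwalk`-type walk or `T_chain` with `T u v ≤ |ω s(u,v)|` for adjacent `u`, `v`). So
`g ν (n,0) = n r`.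
-/

open MeasureTheory ProbabilityTheory Filter Topology

namespace Pool.Agent.Work.MP_9a767b_pr.L

open Z

private theorem di_len {x y : V} (w : lattice.Walk x y) : y.1 - x.1 ≤ w.length := by
  induction w with
  | nil => simp
  | @cons u v z h p ih =>
    rw [SimpleGraph.Walk.length_cons]
    push_cast
    rcases adj4 h with h1 | h1 | h1 | h1
    · have h2 := congrArg Prod.fst h1
      simp only at h2
      omega
    · have h2 := congrArg Prod.fst h1
      simp only at h2
      omega
    · have h2 := congrArg Prod.fst h1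
      simp only at h2
      omega
    · have h2 := congrArg Prod.fst h1
      simp only at h2
      omega

private theorem di_walk (n : ℕ) : ∃ w : lattice.Walk (0 : V) ((n : ℤ), 0), w.length = n := by
  induction n with
  | zero => exact ⟨SimpleGraph.Walk.nil, rfl⟩
  | succ n ih =>
    obtain ⟨w, hw⟩ := ih
    have h : lattice.Adj ((n : ℤ), 0) (((n + 1 : ℕ) : ℤ), 0) := by
      rw [Nat.cast_add, Nat.cast_one]
      exact adj_right n 0
    exact ⟨w.concat h, by rw [SimpleGraph.Walk.length_concat, hw]⟩

private theorem di_const {r : ℝ} (h0 : 0 ≤ r) {ω : Cfg} (hω : ∀ e, ω e = r) {x y : V}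
    (w : lattice.Walk x y) : len (fun e => |ω e|) w = w.length * r := by
  have h1 : (fun e => |ω e|) = fun _ : Sym2 V => r := by
    funext e
    rw [hω, abs_of_nonneg h0]
  rw [h1]
  unfold len
  rw [List.map_const', List.sum_replicate, SimpleGraph.Walk.length_edges, nsmul_eq_mul]

private theorem di_T {r : ℝ} (h0 : 0 ≤ r) {ω : Cfg} (hω : ∀ e, ω e = r) (n : ℕ) :
    T ω 0 ((n : ℤ), 0) = n * r := by
  apply le_antisymm
  · obtain ⟨w, hw⟩ := di_walk n
    have h1 := pt_le_len (c := fun e => |ω e|) (fun _ => abs_nonneg _) w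
    rw [di_const h0 hω, hw] at h1
    exact h1
  · have hne : Nonempty (lattice.Walk (0 : V) ((n : ℤ), 0)) := nonempty_walk _ _
    refine le_ciInf fun w => ?_
    rw [di_const h0 hω]
    have h1 := di_len w
    have h2 : ((n : ℤ)) ≤ w.length := by
      simpa using h1
    have h3 : (n : ℝ) ≤ w.length := by exact_mod_cast h2
    exact mul_le_mul_of_nonneg_right h3 h0

theorem dirac_g {ν : Measure ℝ} [IsProbabilityMeasure ν] {r : ℝ} (h0 : 0 ≤ r)
    (h1 : ν.real {r} = 1) (n : ℕ) : g ν ((n : ℤ), 0) = n * r := by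
  have hν : ∀ᵐ x ∂ν, x = r := by
    have h2 : ν {r} = 1 := by
      have h3 := ENNReal.ofReal_toReal (measure_ne_top ν {r})
      have h4 : (ν {r}).toReal = 1 := h1
      rw [← h3, h4, ENNReal.ofReal_one]
    have h3 := (prob_compl_eq_zero_iff (measurableSet_singleton r)).2 h2
    rw [ae_iff]
    exact h3
  have hae : ∀ᵐ ω ∂(Q ν), ∀ e : Sym2 V, ω e = r := by
    rw [ae_all_iff]
    intro e
    have h2 : MeasurePreserving (Function.eval e) (Q ν) ν := measurePreserving_eval_infinitePi _ e
    exact h2.quasiMeasurePreserving.ae hν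
  unfold g
  have h2 : ∫ ω, T ω 0 ((n : ℤ), 0) ∂(Q ν) = ∫ _ω, (n : ℝ) * r ∂(Q ν) := by
    refine integral_congr_ae ?_
    filter_upwards [hae] with ω hω
    exact di_T h0 hω n
  rw [h2]
  simp

end Pool.Agent.Work.MP_9a767b_pr.L
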