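import Pool.Agent.Work.MP_9a767b_pr.L.Defs
import Pool.Agent.Work.MP_9a767b_pr.U.NearB

/-!
# Low: the time constant is larger than the smallest weight

PROOF (adapt `U/NearB.lean`, theorem `mu_lower`). Almost surely `r ≤ ω e` for all `e` (countably many pairs). Let
`m = ∫ exp (-(x - r)) dν`; `m < 1` because `exp (-(x-r)) ≤ 1` with strict inequality for `x > r`, and
`ν {r} < 1`. Choose `θ > 0` with `exp θ * m < 1`, then `δ ∈ (0,1]` with
`exp (δ log (1/δ) + 3 δ) * (exp θ * m) < 1` (the exponent tends to `0` as `δ → 0`). For a nodup list `l` of length `N`: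
`Q {∑_{e ∈ l} |ω e| ≤ N (r + θ)} ≤ (exp θ * m)^N` (Markov's inequality for
`exp (-∑ (ω e - r)) ≥ exp (-N θ)`, independence: the integral of the product over `l` is `m^N`, for instance
`iIndepFun_infinitePi` and `iIndepFun.integral_prod_comp`/`iIndepFun.mgf_sum`, see `hoeff` in `NearB.lean`). Let
`A = min (r (1 + δ)) (r + θ) > r`. If `T 0 (n,0) < n A` there is a path `w` from `0` to `(n,0)` with weight
`< n A`; its length `N` satisfies `n ≤ N`, `N r ≤ n A ≤ n r (1+δ)`, so `N ≤ n (1+δ)`, and its weight is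
`≤ n A ≤ N (r + θ)`. By `path_union` (with `p = exp θ * m`) `Q {T 0 (n,0) < n A} → 0`, hence
`Nm (g ν) 1 0 ≥ A > r` (last part of the proof of `mu_lower`).
-/

open MeasureTheory ProbabilityTheory Filter Topology

namespace Pool.Agent.Work.MP_9a767b_pr.L

open Z

private theorem lo_ae {ν : Measure ℝ} [IsProbabilityMeasure ν] {r : ℝ} (hν : ∀ᵐ x ∂ν, r ≤ x) :
    ∀ᵐ ω ∂(Q ν), ∀ e : Sym2 V, r ≤ ω e := by
  rw [ae_all_iff]
  intro e
  have h1 : MeasurePreserving (Function.eval e) (Q ν) ν := measurePreserving_eval_infinitePi _ e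
  exact h1.quasiMeasurePreserving.ae hν

private theorem lo_mgf {ν : Measure ℝ} [IsProbabilityMeasure ν] (e : Sym2 V) :
    mgf (fun ω : Cfg => ω e) (Q ν) (-1) = ∫ x, Real.exp (-x) ∂ν := by
  have h1 : MeasurePreserving (Function.eval e) (Q ν) ν := measurePreserving_eval_infinitePi _ e
  have h3 := integral_map (φ := Function.eval e) (f := fun x : ℝ => Real.exp (-x))
      (μ := Q ν) h1.measurable.aemeasurable (by fun_prop)
  rw [h1.map_eq] at h3
  rw [h3]
  unfold mgf
  refine integral_congr_ae (Eventually.of_forall fun ω => ?_)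
  simp

private theorem lo_chern {ν : Measure ℝ} [IsProbabilityMeasure ν] {r : ℝ} (h0 : 0 < r)
    (hν : ∀ᵐ x ∂ν, r ≤ x) (θ : ℝ) (l : List (Sym2 V)) (hl : l.Nodup) :
    (Q ν).real {ω | (l.map (fun e => |ω e|)).sum ≤ l.length * (r + θ)} ≤
      (Real.exp θ * (Real.exp r * ∫ x, Real.exp (-x) ∂ν)) ^ l.length := by
  classical
  have hQ : IsProbabilityMeasure (Q ν) := by unfold Q; infer_instance
  have hae := lo_ae hν
  have hind : iIndepFun (fun (e : Sym2 V) (ω : Cfg) => ω e) (Q ν) :=
    iIndepFun_infinitePi (P := fun _ : Sym2 V => ν) (X := fun _ x => x) (fun _ => by fun_prop)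
  have hmeas : ∀ e : Sym2 V, Measurable (fun ω : Cfg => ω e) := fun e => measurable_pi_apply e
  have hint : ∀ e ∈ l.toFinset, Integrable (fun ω : Cfg => Real.exp ((-1) * ω e)) (Q ν) := by
    intro e _
    refine Integrable.of_mem_Icc 0 1
      (Real.measurable_exp.comp ((hmeas e).const_mul (-1))).aemeasurable ?_
    filter_upwards [hae] with ω hω
    refine ⟨(Real.exp_pos _).le, Real.exp_le_one_iff.2 ?_⟩
    linarith [hω e]
  have h1 := measure_le_le_exp_mul_mgf (μ := Q ν) (X := ∑ e ∈ l.toFinset, fun ω : Cfg => ω e)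
    (t := -1) (l.length * (r + θ)) (by norm_num) (hind.integrable_exp_mul_sum hmeas hint)
  have hcard : l.toFinset.card = l.length := List.toFinset_card_of_nodup hl
  rw [hind.mgf_sum hmeas, Finset.prod_congr rfl fun e _ => lo_mgf (ν := ν) e, Finset.prod_const,
    hcard] at h1
  have h3 : (Q ν).real {ω | (l.map (fun e => |ω e|)).sum ≤ l.length * (r + θ)} ≤
      (Q ν).real {ω | (∑ e ∈ l.toFinset, fun ω : Cfg => ω e) ω ≤ l.length * (r + θ)} := by
    refine ENNReal.toReal_mono (measure_ne_top _ _) (measure_mono_ae ?_)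
    filter_upwards [hae] with ω hω
    intro h4
    have h5 : (l.map (fun e => |ω e|)).sum ≤ l.length * (r + θ) := h4
    have h6 : (l.map (fun e => |ω e|)).sum = ∑ e ∈ l.toFinset, ω e := by
      rw [← List.sum_toFinset _ hl]
      refine Finset.sum_congr rfl fun e _ => ?_
      exact abs_of_nonneg (by linarith [hω e])
    change (∑ e ∈ l.toFinset, fun ω : Cfg => ω e) ω ≤ l.length * (r + θ)
    rw [Finset.sum_apply, ← h6]
    exact h5
  refine h3.trans (h1.trans (le_of_eq ?_))
  rw [mul_pow, mul_pow, ← Real.exp_nat_mul, ← Real.exp_nat_mul,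
    ← mul_assoc (Real.exp (l.length * θ)), ← Real.exp_add]
  congr 2
  ring

private theorem lo_lt {ν : Measure ℝ} [IsProbabilityMeasure ν] {r : ℝ} (h0 : 0 < r)
    (hν : ∀ᵐ x ∂ν, r ≤ x) (h1 : ν.real {r} < 1) : Real.exp r * ∫ x, Real.exp (-x) ∂ν < 1 := by
  by_contra hcon
  rw [not_lt] at hcon
  have hint : Integrable (fun x : ℝ => Real.exp r * Real.exp (-x)) ν := by
    refine Integrable.of_mem_Icc 0 1 (by fun_prop) ?_
    filter_upwards [hν] with x hx
    rw [← Real.exp_add]
    exact ⟨(Real.exp_pos _).le, Real.exp_le_one_iff.2 (by linarith)⟩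
  have h2 : ∫ x, (1 - Real.exp r * Real.exp (-x)) ∂ν = 0 := by
    refine le_antisymm ?_ ?_
    · rw [integral_sub (integrable_const _) hint, integral_const_mul]
      simp
      exact hcon
    · refine integral_nonneg_of_ae ?_
      filter_upwards [hν] with x hx
      rw [← Real.exp_add]
      have : Real.exp (r + -x) ≤ 1 := Real.exp_le_one_iff.2 (by linarith)
      simpa using this
  have hint2 : Integrable (fun x : ℝ => 1 - Real.exp r * Real.exp (-x)) ν :=
    (integrable_const _).sub hint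
  rw [integral_eq_zero_iff_of_nonneg_ae (by
    filter_upwards [hν] with x hx
    rw [← Real.exp_add]
    have : Real.exp (r + -x) ≤ 1 := Real.exp_le_one_iff.2 (by linarith)
    simpa using this) hint2] at h2
  have h3 : ∀ᵐ x ∂ν, x ∈ ({r} : Set ℝ) := by
    filter_upwards [h2] with x hx
    have h4 : 1 - Real.exp r * Real.exp (-x) = 0 := hx
    rw [← Real.exp_add] at h4
    have h5 : Real.exp (r + -x) = 1 := by linarith
    rw [Real.exp_eq_one_iff] at h5
    simp
    linarith
  have h4 : ν {r} = 1 := by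
    rw [prob_compl_eq_zero_iff (measurableSet_singleton r) |>.symm]
    exact h3
  rw [measureReal_def, h4] at h1
  simp at h1

private theorem lo_bypass {ω : Cfg} {x y : V} (w : lattice.Walk x y) :
    ∃ w' : lattice.Walk x y, w'.IsPath ∧ (w'.edges.map (fun e => |ω e|)).sum ≤
      len (fun e => |ω e|) w := by
  classical
  refine ⟨w.bypass, w.bypass_isPath, ?_⟩
  unfold len
  refine List.Sublist.sum_le_sum (w.edges_bypass_sublist_edges.map _) ?_
  intro r hr
  obtain ⟨e, -, rfl⟩ := List.mem_map.1 hr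
  exact abs_nonneg _

private theorem lo_len {x y : V} (w : lattice.Walk x y) : y.1 - x.1 ≤ w.length := by
  induction w with
  | nil => simp
  | @cons u v w h p ih =>
    rw [adj_iff] at h
    rw [SimpleGraph.Walk.length_cons]
    push_cast
    have h1 := abs_le.1 (le_refl |u.1 - v.1|)
    have h2 := abs_nonneg (u.2 - v.2)
    linarith [h1.1]

private theorem lo_theta {m : ℝ} (hm : m < 1) : ∃ θ : ℝ, 0 < θ ∧ Real.exp θ * m < 1 := by
  have h1 : Tendsto (fun θ : ℝ => Real.exp θ * m) (𝓝[>] 0) (𝓝 (Real.exp 0 * m)) :=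
    ((Real.continuous_exp.tendsto 0).mul_const m).mono_left nhdsWithin_le_nhds
  rw [Real.exp_zero, one_mul] at h1
  obtain ⟨θ, h2, h3⟩ := ((h1.eventually_lt_const hm).and self_mem_nhdsWithin).exists
  exact ⟨θ, h3, h2⟩

private theorem lo_delta {p : ℝ} (hp : p < 1) :
    ∃ δ : ℝ, 0 < δ ∧ δ ≤ 1 ∧ Real.exp (δ * Real.log (1 / δ) + 3 * δ) * p < 1 := by
  have h0 : Continuous (fun δ : ℝ => Real.exp (-(δ * Real.log δ) + 3 * δ) * p) := by
    have := Real.continuous_mul_log
    fun_prop
  have h1 : Tendsto (fun δ : ℝ => Real.exp (-(δ * Real.log δ) + 3 * δ) * p) (𝓝[>] 0)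
      (𝓝 (Real.exp (-((0 : ℝ) * Real.log 0) + 3 * 0) * p)) :=
    (h0.tendsto 0).mono_left nhdsWithin_le_nhds
  have h2 : Real.exp (-((0 : ℝ) * Real.log 0) + 3 * 0) * p = p := by simp
  rw [h2] at h1
  have h4 : ∀ᶠ δ : ℝ in 𝓝[>] 0, δ ≤ 1 := by
    filter_upwards [Ioc_mem_nhdsGT (show (0 : ℝ) < 1 by norm_num)] with δ hδ using hδ.2
  obtain ⟨δ, ⟨h2, h5⟩, h3⟩ := (((h1.eventually_lt_const hp).and h4).and self_mem_nhdsWithin).exists
  refine ⟨δ, h3, h5, ?_⟩
  have : δ * Real.log (1 / δ) = -(δ * Real.log δ) := by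
    rw [one_div, Real.log_inv]; ring
  rw [this]
  exact h2

theorem low {ν : Measure ℝ} [IsProbabilityMeasure ν]
    (hI : Integrable (fun ω => T ω 0 (1, 0)) (Q ν)) {r : ℝ} (h0 : 0 < r)
    (hν : ∀ᵐ x ∂ν, r ≤ x) (h1 : ν.real {r} < 1) : r < Nm (g ν) 1 0 := by
  have hQ : IsProbabilityMeasure (Q ν) := by unfold Q; infer_instance
  have hae := lo_ae hν
  set m := Real.exp r * ∫ x, Real.exp (-x) ∂ν with hm
  have hm0 : 0 ≤ m := by
    have : 0 ≤ ∫ x, Real.exp (-x) ∂ν := integral_nonneg fun x => (Real.exp_pos _).le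
    positivity
  have hm1 : m < 1 := lo_lt h0 hν h1
  obtain ⟨θ, hθ, hθ1⟩ := lo_theta hm1
  obtain ⟨δ, hδ, hδ1, hδ2⟩ := lo_delta hθ1
  set p := Real.exp θ * m with hp
  have hp0 : 0 ≤ p := by positivity
  set R := Real.exp (δ * Real.log (1 / δ) + 3 * δ) * p with hR
  have hR0 : 0 ≤ R := by positivity
  set A := min (r * (1 + δ)) (r + θ) with hA
  have hA1 : A ≤ r * (1 + δ) := min_le_left _ _
  have hA2 : A ≤ r + θ := min_le_right _ _
  have hA3 : r < A := lt_min (by nlinarith) (by linarith)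
  have hA0 : 0 ≤ A := by linarith
  -- the probability estimate
  have hprob : ∀ n : ℕ, (Q ν).real {ω | T ω 0 (n, 0) < n * A} ≤ R ^ n / (1 - R) := by
    intro n
    have h1 := U.path_union (ν := ν) n hδ hδ1 (p := p) hp0
      (fun l => {ω | (l.map (fun e => |ω e|)).sum ≤ l.length * (r + θ)})
      (fun l hl => lo_chern h0 hν θ l hl)
    have h2 : (Q ν).real {ω | T ω 0 (n, 0) < n * A} ≤ (Q ν).real
        {ω | ∃ w : lattice.Walk (0 : V) (n, 0), w.IsPath ∧ (w.length : ℝ) ≤ n * (1 + δ) ∧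
          ω ∈ {ω : Cfg | (w.edges.map (fun e => |ω e|)).sum ≤ w.edges.length * (r + θ)}} := by
      refine ENNReal.toReal_mono (measure_ne_top _ _) (measure_mono_ae ?_)
      filter_upwards [hae] with ω hω
      intro h3
      have h3' : T ω 0 (n, 0) < n * A := h3
      obtain ⟨w, hw⟩ := exists_near (fun e => |ω e|) 0 ((n : ℤ), 0) (sub_pos.2 h3')
      have hw' : len (fun e => |ω e|) w < n * A := by
        have : T ω 0 (n, 0) = pt (fun e => |ω e|) 0 ((n : ℤ), 0) := rfl
        rw [this] at hw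
        linarith
      obtain ⟨w', hw1, hw2⟩ := lo_bypass (ω := ω) w
      have hlow : (w'.edges.length : ℝ) * r ≤ (w'.edges.map (fun e => |ω e|)).sum := by
        have : (w'.edges.length : ℝ) * r = (w'.edges.map (fun _ => r)).sum := by
          simp
        rw [this]
        refine List.sum_le_sum fun e _ => ?_
        rw [abs_of_nonneg (by linarith [hω e])]
        exact hω e
      have hl1 : (w'.length : ℝ) ≤ n * (1 + δ) := by
        rw [← SimpleGraph.Walk.length_edges]
        have h7 : (n : ℝ) * A ≤ n * (r * (1 + δ)) := by gcongr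
        have h8 : (w'.edges.length : ℝ) * r ≤ (n * (1 + δ)) * r := by
          calc (w'.edges.length : ℝ) * r ≤ n * (r * (1 + δ)) := by linarith
            _ = _ := by ring
        exact le_of_mul_le_mul_right h8 h0
      have hl2 : (n : ℝ) ≤ w'.length := by
        have h4 := lo_len w'
        have h5 : (n : ℤ) ≤ w'.length := by simpa using h4
        exact_mod_cast h5
      refine ⟨w', hw1, hl1, ?_⟩
      rw [SimpleGraph.Walk.length_edges]
      have h9 : (n : ℝ) * A ≤ w'.length * (r + θ) := by gcongr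
      linarith
    refine h2.trans (h1.trans ?_)
    rw [← Finset.Ico_add_one_right_eq_Icc]
    exact (geom_sum_Ico_le_of_lt_one hR0 hδ2)
  -- the expectation
  have hexp : ∀ n : ℕ, n * A * (1 - R ^ n / (1 - R)) ≤ g ν ((n : ℤ) * 1, (n : ℤ) * 0) := by
    intro n
    rw [mul_one, mul_zero]
    unfold g
    have h1 : MeasurableSet {ω : Cfg | T ω 0 (n, 0) < n * A} :=
      measurableSet_lt (measurable_T _ _) measurable_const
    have h2 : ∫ ω, ({ω : Cfg | T ω 0 (n, 0) < n * A}ᶜ.indicator (fun _ => (n : ℝ) * A) ω) ∂(Q ν) ≤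
        ∫ ω, T ω 0 (n, 0) ∂(Q ν) := by
      refine integral_mono ((integrable_const _).indicator h1.compl) (integrable_T hI _ _) ?_
      intro ω
      by_cases h3 : ω ∈ {ω : Cfg | T ω 0 (n, 0) < n * A}ᶜ
      · rw [Set.indicator_of_mem h3]
        have h4 : ¬ (T ω 0 (n, 0) < n * A) := h3
        exact not_lt.1 h4
      · rw [Set.indicator_of_notMem h3]
        exact T_nonneg _ _ _
    rw [integral_indicator_const _ h1.compl, smul_eq_mul, probReal_compl_eq_one_sub h1] at h2
    have h5 := hprob n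
    have h6 : 0 ≤ (n : ℝ) * A := by positivity
    nlinarith
  have hlim := nm_tendsto_int (subSym_g hI) 1 0
  have hlim2 : Tendsto (fun n : ℕ => A * (1 - R ^ n / (1 - R))) atTop (𝓝 (A * (1 - 0 / (1 - R)))) :=
    ((tendsto_const_nhds.sub ((tendsto_pow_atTop_nhds_zero_of_lt_one hR0 hδ2).div_const _)))
      |>.const_mul A
  rw [zero_div, sub_zero, mul_one] at hlim2
  have hcast : Nm (g ν) ((1 : ℤ) : ℝ) ((0 : ℤ) : ℝ) = Nm (g ν) 1 0 := by norm_num
  rw [hcast] at hlim
  refine hA3.trans_le (le_of_tendsto_of_tendsto hlim2 hlim ?_)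
  filter_upwards [eventually_gt_atTop 0] with n hn
  have hn' : (0 : ℝ) < n := by exact_mod_cast hn
  rw [le_div_iff₀ hn']
  have := hexp n
  linarith

end Pool.Agent.Work.MP_9a767b_pr.L
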