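import Pool.Agent.Work.MP_9a767b_pr.L.Diag
import Pool.Agent.Work.MP_9a767b_pr.L.Low
import Pool.Agent.Work.MP_9a767b_pr.L.Dirac
import Pool.Agent.Work.MP_9a767b_pr.U.Main

/-!
# Main: unit increments for laws with a large atom at the smallest weight

PROOF. `quantile`: by `diag_le` `Nm (g ν) 1 1 ≤ 2 r < 2 Nm (g ν) 1 0`, and `U.unit` gives the limit
`Nm (g ν) 1 0`. `large_atom`: if `ν.real {r} = 1`: `dirac_g`, the increments are equal to `r`. Otherwise
`ν.real {r} < 1`, `low` gives `r < Nm (g ν) 1 0`, and `quantile` applies since `r ∈ {x | |x| ≤ r}`.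
-/

open MeasureTheory ProbabilityTheory Filter Topology

namespace Pool.Agent.Work.MP_9a767b_pr.L

open Z

theorem quantile {ν : Measure ℝ} [IsProbabilityMeasure ν]
    (hI : Integrable (fun ω => T ω 0 (1, 0)) (Q ν)) {r : ℝ} (h0 : 0 ≤ r)
    (hr : 15 / 16 < ν.real {x | |x| ≤ r}) (h : r < Nm (g ν) 1 0) :
    Tendsto (fun n : ℕ => g ν ((n : ℤ) + 1, 0) - g ν (n, 0)) atTop (𝓝 (Nm (g ν) 1 0)) := by
  have h1 := diag_le hI h0 hr
  exact U.unit hI (by linarith)

theorem large_atom {ν : Measure ℝ} [IsProbabilityMeasure ν]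
    (hI : Integrable (fun ω => T ω 0 (1, 0)) (Q ν)) {r : ℝ} (h0 : 0 < r)
    (hν : ∀ᵐ x ∂ν, r ≤ x) (hr : 15 / 16 < ν.real {r}) :
    ∃ μ : ℝ, Tendsto (fun n : ℕ => g ν ((n : ℤ) + 1, 0) - g ν (n, 0)) atTop (𝓝 μ) := by
  by_cases h1 : ν.real {r} = 1
  · refine ⟨r, ?_⟩
    have h2 : ∀ n : ℕ, g ν ((n : ℤ) + 1, 0) - g ν (n, 0) = r := by
      intro n
      have h3 := dirac_g h0.le h1 (n + 1)
      have h4 := dirac_g h0.le h1 n
      rw [Nat.cast_add, Nat.cast_one] at h3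
      rw [h3, h4]
      push_cast
      ring
    simp only [h2]
    exact tendsto_const_nhds
  · have h2 : ν.real {r} < 1 := lt_of_le_of_ne measureReal_le_one h1
    refine ⟨Nm (g ν) 1 0, quantile hI h0.le (hr.trans_le ?_) (low hI h0 hν h2)⟩
    refine measureReal_mono ?_ (measure_ne_top _ _)
    intro x hx
    rw [Set.mem_singleton_iff] at hx
    show |x| ≤ r
    rw [hx, abs_of_pos h0]

end Pool.Agent.Work.MP_9a767b_pr.L
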